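import Pool.Agent.Q45.Tate.Ind

/-!
Four independent points.
-/

set_option autoImplicit false
set_option linter.all false

open Polynomial IsDedekindDomain WeierstrassCurve WeierstrassCurve.Affine
open scoped Classical

namespace Q45.Tate

open Pool.Agent.TH115.GD Pool.Agent.W309.RK

section functional

variable {F : Type*} [Field F] {W : Affine F}

theorem parHom_some (h : HasRoot W 0) (ord : F → ℤ)
    (hord : ∀ f g : F, f ≠ 0 → g ≠ 0 → ord (f * g) = ord f + ord g) {u v : F}
    (hn : W.Nonsingular u v) (hu : u ≠ 0) :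
    parHom h ord hord (Point.some u v hn) = (ord u : ZMod 2) := by
  have e : del W 0 (Point.some u v hn) = u := by
    unfold del
    simp only [if_neg hu, sub_zero]
  show ((ord (del W 0 (Point.some u v hn)) : ℤ) : ZMod 2) = _
  rw [e]

theorem parHom_tor (h : HasRoot W 0) (ord : F → ℤ)
    (hord : ∀ f g : F, f ≠ 0 → g ≠ 0 → ord (f * g) = ord f + ord g)
    (hn : W.Nonsingular 0 0) :
    parHom h ord hord (Point.some 0 0 hn) = (ord W.a₄ : ZMod 2) := by
  have e : del W 0 (Point.some 0 0 hn) = W.a₄ := by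
    unfold del Pool.Agent.W309.RK.dd
    simp
  show ((ord (del W 0 (Point.some 0 0 hn)) : ℤ) : ZMod 2) = _
  rw [e]

end functional

section tors

variable {K : Type} [Field K] {a b d : K}

theorem tors (h2 : (2 : K) ≠ 0) (hd : d = a ^ 2 - 4 * b) (hsq : ∀ r : K, r ^ 2 ≠ d)
    (P : Pt (crvT a b) K) (hP : P + P = 0) : P = 0 ∨ ∃ h, P = Point.some 0 0 h := by
  have hr := root0 (L := K) a b
  rcases P with _ | ⟨x, y, hxy⟩
  · left; rfl
  right
  have hy : y = 0 := by
    by_contra hy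
    have hne : y ≠ ((crvT a b).baseChange K).toAffine.negY x y := by
      rw [hr.negY]
      intro h1
      have : (2 : K) * y = 0 := by linear_combination h1
      rcases mul_eq_zero.1 this with h3 | h3
      · exact h2 h3
      · exact hy h3
    rw [Point.add_self_of_Y_ne hne] at hP
    exact absurd hP (Point.some_ne_zero _)
  subst hy
  have he := eqT.1 hxy.1
  have he' : x * (x ^ 2 + a * x + b) = 0 := by
    have h5 : algebraMap K K a = a := rfl
    have h6 : algebraMap K K b = b := rfl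
    rw [h5, h6] at he
    rw [← he]; ring
  rcases mul_eq_zero.1 he' with h | h
  · subst h
    exact ⟨hxy, rfl⟩
  · exfalso
    apply hsq (2 * x + a)
    rw [hd]
    linear_combination 4 * h

/-- The image of a point under the dual isogeny. -/
theorem exists_from (h2 : (2 : K) ≠ 0) (hb : b ≠ 0) (hd : d = a ^ 2 - 4 * b) (hd0 : d ≠ 0)
    (hb4 : ∀ r : K, r ^ 2 ≠ b) {X Y : K} (hX : X ≠ 0)
    (hY : Y ^ 2 = X * (X ^ 2 - 2 * a * X + d)) :
    ∃ (R : Pt (crvT a b) K) (v : K), v ≠ 0 ∧ FromX a b d R X ∧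
      ∃ y h, R = Point.some (v ^ 2) y h := by
  have h4 : (4 : K) ≠ 0 := by
    have : (4 : K) = 2 * 2 := by norm_num
    rw [this]; exact mul_ne_zero h2 h2
  have h8 : (8 : K) ≠ 0 := by
    have : (8 : K) = 2 * 4 := by norm_num
    rw [this]; exact mul_ne_zero h2 h4
  have h5 : ∀ r : K, algebraMap K K r = r := fun r => rfl
  have hY0 : Y ≠ 0 := by
    rintro rfl
    have h6 : X ^ 2 - 2 * a * X + d = 0 := by
      have : X * (X ^ 2 - 2 * a * X + d) = 0 := by rw [← hY]; ring
      exact (mul_eq_zero.1 this).resolve_left hX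
    apply hb4 ((X - a) / 2)
    rw [div_pow]
    have h7 : (2 : K) ^ 2 ≠ 0 := pow_ne_zero 2 h2
    rw [div_eq_iff h7]
    rw [hd] at h6
    linear_combination h6
  have hv : Y / (2 * X) ≠ 0 := div_ne_zero hY0 (mul_ne_zero h2 hX)
  have hx : (Y / (2 * X)) ^ 2 = (X ^ 2 - 2 * a * X + d) / (4 * X) := by
    rw [div_pow, hY]
    field_simp
    ring
  have heq : (Y * (X ^ 2 - d) / (8 * X ^ 2)) ^ 2 = (Y / (2 * X)) ^ 2 *
      (((Y / (2 * X)) ^ 2) ^ 2 + algebraMap K K a * (Y / (2 * X)) ^ 2 + algebraMap K K b) := by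
    rw [h5, h5, hx, div_pow, mul_pow, hY, hd]
    field_simp
    ring
  refine ⟨Point.some _ _ (nonsT h2 hb (by rw [← hd]; exact hd0) heq), Y / (2 * X), hv,
    ⟨hX, _, _, _, rfl, ?_⟩, _, _, rfl⟩
  rw [hx]
  field_simp

end tors

section main

variable {k K : Type} [Field k] [Field K] [Algebra k[X] K] [IsFractionRing k[X] K]
variable {S x y z : k[X]}

theorem par_of (π : k[X]) (hπ : Irreducible π) {c : k} (hc : c ≠ 0) {p : k[X]} (hp : p ≠ 0)
    {s : K} (hs : s ≠ 0) : par π hπ (algebraMap k[X] K (C c * p) * s ^ 2) =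
      par π hπ (algebraMap k[X] K p) := by
  have n1 : algebraMap k[X] K (C c) ≠ 0 := by
    rw [Ne, map_eq_zero_iff _ (IsFractionRing.injective k[X] K), C_eq_zero]
    exact hc
  have n2 : algebraMap k[X] K p ≠ 0 := by
    rw [Ne, map_eq_zero_iff _ (IsFractionRing.injective k[X] K)]
    exact hp
  rw [map_mul, par_mul π hπ (mul_ne_zero n1 n2) (pow_ne_zero 2 hs), par_mul π hπ n1 n2,
    par_const π hπ hc, par_sq π hπ hs, zero_add, add_zero]

/-- The parity of a product of three irreducible polynomials. -/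
theorem par_three {p : Fin 3 → k[X]} (hirr : ∀ i, Irreducible (p i))
    (hn : ∀ i j, i ≠ j → ¬ p i ∣ p j) {u : k} (hu : u ≠ 0) (i : Fin 3) :
    par (p i) (hirr i) (algebraMap k[X] K (C u * (p 0 * p 1 * p 2))) = 1 := by
  have n : ∀ i, algebraMap k[X] K (p i) ≠ 0 := fun i => by
    rw [Ne, map_eq_zero_iff _ (IsFractionRing.injective k[X] K)]
    exact (hirr i).ne_zero
  have nu : algebraMap k[X] K (C u) ≠ 0 := by
    rw [Ne, map_eq_zero_iff _ (IsFractionRing.injective k[X] K), C_eq_zero]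
    exact hu
  rw [map_mul, map_mul, map_mul, par_mul _ _ nu (mul_ne_zero (mul_ne_zero (n 0) (n 1)) (n 2)),
    par_mul _ _ (mul_ne_zero (n 0) (n 1)) (n 2), par_mul _ _ (n 0) (n 1), par_const _ _ hu]
  have hs : par (p i) (hirr i) (algebraMap k[X] K (p i)) = 1 := par_self _ _
  have ho : ∀ j, i ≠ j → par (p i) (hirr i) (algebraMap k[X] K (p j)) = 0 := fun j hj =>
    par_not_dvd _ _ (hn i j hj)
  fin_cases i
  · have h1 := ho 1 (by decide)
    have h2 := ho 2 (by decide)
    simp only [Fin.zero_eta] at hs h1 h2 ⊢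
    rw [hs, h1, h2]; decide
  · have h1 := ho 0 (by decide)
    have h2 := ho 2 (by decide)
    simp only [Fin.mk_one] at hs h1 h2 ⊢
    rw [hs, h1, h2]; decide
  · have h1 := ho 0 (by decide)
    have h2 := ho 1 (by decide)
    simp only [Fin.reduceFinMk] at hs h1 h2 ⊢
    rw [hs, h1, h2]; decide

/-- **Four independent points.** -/
theorem Good.indep (h2 : (2 : k) ≠ 0) (G : Good S x y z) :
    ∃ P : Fin 4 → Pt (crvT (algebraMap k[X] K (cA S x y z)) (algebraMap k[X] K (cB S x y z))) K,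
      LinearIndependent ℤ P := by
  have inj := IsFractionRing.injective k[X] K
  have h2K : (2 : K) ≠ 0 := by
    have h4 : algebraMap k[X] K (C 2) ≠ 0 := by
      rw [Ne, map_eq_zero_iff _ inj, C_eq_zero]
      exact h2
    rwa [C_ofNat, map_ofNat] at h4
  have h4 : (4 : k) ≠ 0 := four_ne h2
  set a := algebraMap k[X] K (cA S x y z) with ha
  set b := algebraMap k[X] K (cB S x y z) with hb
  obtain ⟨d, hd⟩ : ∃ d, d = a ^ 2 - 4 * b := ⟨_, rfl⟩
  have hdD : d = algebraMap k[X] K (C (-16) * (DD S x y z 0 * DD S x y z 1 * DD S x y z 2)) := by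
    rw [← disc', hd, map_sub, map_mul, map_pow, map_ofNat]
  have hbQ : b = algebraMap k[X] K (C 4 * (QQ S x y z 0 * QQ S x y z 1 * QQ S x y z 2)) := by
    rw [hb, C_ofNat]; rfl
  have parB : ∀ i, par (QQ S x y z i) (G.irrQ i) b = 1 := fun i => by
    rw [hbQ]; exact par_three G.irrQ G.nassQ h4 i
  have parD : ∀ i, par (DD S x y z i) (G.irrD i) d = 1 := fun i => by
    rw [hdD]; exact par_three G.irrD G.nassD (sixteen_ne h2) i
  have hb0 : b ≠ 0 := by
    rw [hb, Ne, map_eq_zero_iff _ inj]; exact G.b0 h2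
  have hd0 : d ≠ 0 := by
    rw [hdD, Ne, map_eq_zero_iff _ inj]
    exact mul_ne_zero (C_ne_zero.2 (sixteen_ne h2))
      (mul_ne_zero (mul_ne_zero (G.irrD 0).ne_zero (G.irrD 1).ne_zero) (G.irrD 2).ne_zero)
  have nsq : ∀ {π : k[X]} (hπ : Irreducible π) {f : K}, f ≠ 0 → par π hπ f = 1 →
      ∀ r : K, r ^ 2 ≠ f := by
    intro π hπ f hf hp r hr
    have hr0 : r ≠ 0 := by
      rintro rfl
      rw [zero_pow two_ne_zero] at hr
      exact hf hr.symm
    rw [← hr, par_sq _ _ hr0] at hp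
    exact zero_ne_one hp
  have hdsq : ∀ r : K, r ^ 2 ≠ d := nsq (G.irrD 0) hd0 (parD 0)
  have hbsq : ∀ r : K, r ^ 2 ≠ b := nsq (G.irrQ 0) hb0 (parB 0)
  -- the functionals
  let φ : Fin 3 → (Pt (crvT a b) K →+ ZMod 2) := fun i =>
    parHom (root0 (L := K) a b) (ordK (QQ S x y z i) (G.irrQ i))
      (ordK_mul (QQ S x y z i) (G.irrQ i))
  have φsome : ∀ (i : Fin 3) {u v : K} (h : _), u ≠ 0 →
      φ i (Point.some u v h) = par (QQ S x y z i) (G.irrQ i) u := by
    intro i u v h hu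
    exact parHom_some _ _ _ h hu
  have φT : ∀ (i : Fin 3) (h : _), φ i (Point.some 0 0 h) = 1 := by
    intro i h
    exact (parHom_tor _ _ _ h).trans (parB i)
  -- the points on the curve
  have ptQ : ∀ i : Fin 3, ∃ P : Pt (crvT a b) K, ∀ j,
      φ j P = if j = i then 1 else 0 := by
    have key : ∀ i : Fin 3, (∃ (c : k) (s w : K), c ≠ 0 ∧ s ≠ 0 ∧
      w ^ 2 = (algebraMap k[X] K (C c * QQ S x y z i) * s ^ 2) *
        ((algebraMap k[X] K (C c * QQ S x y z i) * s ^ 2) ^ 2 +
          a * (algebraMap k[X] K (C c * QQ S x y z i) * s ^ 2) + b)) →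
        ∃ P : Pt (crvT a b) K, ∀ j, φ j P = if j = i then 1 else 0 := by
      rintro i ⟨c, s, w, hc, hs, hw⟩
      have hx0 : algebraMap k[X] K (C c * QQ S x y z i) * s ^ 2 ≠ 0 := by
        refine mul_ne_zero ?_ (pow_ne_zero 2 hs)
        rw [Ne, map_eq_zero_iff _ inj]
        exact mul_ne_zero (C_ne_zero.2 hc) (G.irrQ i).ne_zero
      refine ⟨Point.some _ _ (nonsT h2K hb0 (by rw [← hd]; exact hd0) hw), fun j => ?_⟩
      rw [φsome j _ hx0, par_of _ _ hc (G.irrQ i).ne_zero hs]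
      by_cases hj : j = i
      · subst hj
        rw [if_pos rfl, par_self]
      · rw [if_neg hj]
        exact par_not_dvd _ _ (G.nassQ j i hj)
    intro i
    apply key
    fin_cases i
    · exact pointE h2 G.ne_yz
    · have := pointE (K := K) (S := S) h2 G.ne_zx (x := y)
      rw [← cA_rot S x y z, ← cB_rot S x y z] at this
      exact this
    · have := pointE (K := K) (S := S) h2 G.ne_xy (x := z)
      rw [← cA_rot S y z x, ← cB_rot S y z x, ← cA_rot S x y z, ← cB_rot S x y z] at this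
      exact this
  -- the points from the isogenous curve
  have ptD : ∀ i : Fin 3, i ≠ 2 → ∃ (R : Pt (crvT a b) K) (X : K), FromX a b d R X ∧
      (∀ j, φ j R = 0) ∧ ∀ j, par (DD S x y z j) (G.irrD j) X = if j = i then 1 else 0 := by
    have key : ∀ i : Fin 3, (∃ (c : k) (s w : K), c ≠ 0 ∧ s ≠ 0 ∧
      w ^ 2 = (algebraMap k[X] K (C c * DD S x y z i) * s ^ 2) *
        ((algebraMap k[X] K (C c * DD S x y z i) * s ^ 2) ^ 2 +
          algebraMap k[X] K (-2 * cA S x y z) *
            (algebraMap k[X] K (C c * DD S x y z i) * s ^ 2) +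
            algebraMap k[X] K (cA S x y z ^ 2 - 4 * cB S x y z))) →
        ∃ (R : Pt (crvT a b) K) (X : K), FromX a b d R X ∧
      (∀ j, φ j R = 0) ∧ ∀ j, par (DD S x y z j) (G.irrD j) X = if j = i then 1 else 0 := by
      rintro i ⟨c, s, w, hc, hs, hw⟩
      have hx0 : algebraMap k[X] K (C c * DD S x y z i) * s ^ 2 ≠ 0 := by
        refine mul_ne_zero ?_ (pow_ne_zero 2 hs)
        rw [Ne, map_eq_zero_iff _ inj]
        exact mul_ne_zero (C_ne_zero.2 hc) (G.irrD i).ne_zero
      have hw' : w ^ 2 = (algebraMap k[X] K (C c * DD S x y z i) * s ^ 2) *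
          ((algebraMap k[X] K (C c * DD S x y z i) * s ^ 2) ^ 2 -
          2 * a * (algebraMap k[X] K (C c * DD S x y z i) * s ^ 2) + d) := by
        rw [hw, hd]
        simp only [map_sub, map_mul, map_pow, map_neg, map_ofNat, ← ha, ← hb]
        ring
      obtain ⟨R, v, hv, hR, y', h', hRe⟩ := exists_from h2K hb0 hd hd0 hbsq hx0 hw'
      refine ⟨R, _, hR, fun j => ?_, fun j => ?_⟩
      · rw [hRe, φsome j _ (pow_ne_zero 2 hv), par_sq _ _ hv]
      · rw [par_of _ _ hc (G.irrD i).ne_zero hs]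
        by_cases hj : j = i
        · subst hj
          rw [if_pos rfl, par_self]
        · rw [if_neg hj]
          exact par_not_dvd _ _ (G.nassD j i hj)
    intro i hi
    apply key
    fin_cases i
    · exact pointD h2 G.tp
    · have h5 : 1 + (-x + -y + -z) ≠ 0 := by
        have e : 1 + (-x + -y + -z) = 1 - (x + y + z) := by ring
        rw [e]; exact G.tm
      have := pointD (K := K) (S := S) h2 h5
      rw [cA_neg, cB_neg] at this
      have e : S - 8 * (-x * -y * -z) = S + 8 * (x * y * z) := by ring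
      rw [e] at this
      exact this
    · exact absurd rfl hi
  obtain ⟨P0, hP0⟩ := ptQ 0
  obtain ⟨P1, hP1⟩ := ptQ 1
  obtain ⟨R0, X0, hR0, hφ0, hX0⟩ := ptD 0 (by decide)
  obtain ⟨R1, X1, hR1, hφ1, hX1⟩ := ptD 1 (by decide)
  obtain ⟨halfA, halfB⟩ := half_K h2K hd hdsq
  -- no relations
  have par_bad : ∀ {X : K} {j l : Fin 3}, X ≠ 0 → par (DD S x y z j) (G.irrD j) X = 1 →
      par (DD S x y z l) (G.irrD l) X = 0 → ¬ ∃ v : K, X = v ^ 2 ∨ X = v ^ 2 * d := by
    rintro X j l hX hj hl ⟨v, hv | hv⟩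
    · have hv0 : v ≠ 0 := by
        rintro rfl
        apply hX
        rw [hv]; ring
      rw [hv, par_sq _ _ hv0] at hj
      exact zero_ne_one hj
    · have hv0 : v ≠ 0 := by
        rintro rfl
        apply hX
        rw [hv]; ring
      rw [hv, par_mul _ _ (pow_ne_zero 2 hv0) hd0, par_sq _ _ hv0, parD, zero_add] at hl
      exact one_ne_zero hl
  refine ⟨![P0, P1, R0, R1], indep_of_even _ ?_⟩
  intro c hc
  have hS : ∑ i, c i • (![P0, P1, R0, R1] : Fin 4 → Pt (crvT a b) K) i =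
      c 0 • P0 + c 1 • P1 + c 2 • R0 + c 3 • R1 := by
    rw [Fin.sum_univ_four]
    rfl
  rw [hS] at hc ⊢
  have hφ : ∀ j, φ j (c 0 • P0 + c 1 • P1 + c 2 • R0 + c 3 • R1) =
      c 0 • (if j = 0 then (1 : ZMod 2) else 0) + c 1 • (if j = 1 then (1 : ZMod 2) else 0) := by
    intro j
    rw [map_add, map_add, map_add, map_zsmul, map_zsmul, map_zsmul, map_zsmul, hP0, hP1, hφ0, hφ1,
      smul_zero, smul_zero, add_zero, add_zero]
  have h0 : c 0 • P0 + c 1 • P1 + c 2 • R0 + c 3 • R1 = 0 := by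
    rcases tors h2K hd hdsq _ hc with h | ⟨h, hh⟩
    · exact h
    · exfalso
      have h5 := hφ 2
      rw [hh, φT] at h5
      simp at h5
  refine ⟨h0, ?_⟩
  have ev : ∀ n : ℤ, n • (1 : ZMod 2) = 0 → Even n := by
    intro n hn
    rw [zsmul_one] at hn
    exact (ZMod.intCast_eq_zero_iff_even).1 hn
  have e0 : Even (c 0) := by
    have h5 := hφ 0
    rw [h0, map_zero] at h5
    apply ev
    simpa using h5.symm
  have e1 : Even (c 1) := by
    have h5 := hφ 1
    rw [h0, map_zero] at h5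
    apply ev
    simpa using h5.symm
  obtain ⟨m0, hm0⟩ := e0
  obtain ⟨m1, hm1⟩ := e1
  have h6 : c 2 • R0 + c 3 • R1 = -(m0 • P0 + m1 • P1) + -(m0 • P0 + m1 • P1) := by
    rw [hm0, hm1] at h0
    have : c 2 • R0 + c 3 • R1 = ((m0 + m0) • P0 + (m1 + m1) • P1 + c 2 • R0 + c 3 • R1) -
        ((m0 + m0) • P0 + (m1 + m1) • P1) := by abel
    rw [this, h0, add_smul, add_smul]
    abel
  have e23 : Even (c 2) ∧ Even (c 3) := by
    rcases Int.even_or_odd' (c 2) with ⟨m2, h2' | h2'⟩ <;>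
    rcases Int.even_or_odd' (c 3) with ⟨m3, h3' | h3'⟩
    · exact ⟨⟨m2, by rw [h2']; ring⟩, ⟨m3, by rw [h3']; ring⟩⟩
    · exfalso
      refine par_bad hR1.ne (j := 1) (l := 0) (by rw [hX1]; rfl) (by rw [hX1]; rfl)
        (halfA hR1 (Y := -(m0 • P0 + m1 • P1) - m2 • R0 - m3 • R1) ?_)
      have : R1 = (c 2 • R0 + c 3 • R1) - ((m2 • R0 + m2 • R0) + (m3 • R1 + m3 • R1)) := by
        rw [h2', h3', add_smul, one_smul, two_mul, two_mul, add_smul, add_smul]
        abel
      exact this.trans (by rw [h6]; abel)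
    · exfalso
      refine par_bad hR0.ne (j := 0) (l := 1) (by rw [hX0]; rfl) (by rw [hX0]; rfl)
        (halfA hR0 (Y := -(m0 • P0 + m1 • P1) - m2 • R0 - m3 • R1) ?_)
      have : R0 = (c 2 • R0 + c 3 • R1) - ((m2 • R0 + m2 • R0) + (m3 • R1 + m3 • R1)) := by
        rw [h2', h3', add_smul, one_smul, two_mul, two_mul, add_smul, add_smul]
        abel
      exact this.trans (by rw [h6]; abel)
    · exfalso
      have p0 : par (DD S x y z 0) (G.irrD 0) (X0 * X1) = 1 := by
        rw [par_mul _ _ hR0.ne hR1.ne, hX0, hX1]; decide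
      have p2 : par (DD S x y z 2) (G.irrD 2) (X0 * X1) = 0 := by
        rw [par_mul _ _ hR0.ne hR1.ne, hX0, hX1]; decide
      refine par_bad (mul_ne_zero hR0.ne hR1.ne) p0 p2
        (halfB hR0 hR1 (Y := -(m0 • P0 + m1 • P1) - m2 • R0 - m3 • R1) ?_)
      have : R0 + R1 = (c 2 • R0 + c 3 • R1) - ((m2 • R0 + m2 • R0) + (m3 • R1 + m3 • R1)) := by
        rw [h2', h3', add_smul, add_smul, one_smul, one_smul, two_mul, two_mul, add_smul, add_smul]
        abel
      exact this.trans (by rw [h6]; abel)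
  intro i
  fin_cases i
  · exact ⟨m0, hm0⟩
  · exact ⟨m1, hm1⟩
  · exact e23.1
  · exact e23.2

end main

end Q45.Tate
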