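import Pool.Agent.Q45.Tate.Ind2
import Pool.Agent.Q45.Tate.Dens
import Pool.Agent.Y160.T3.IrrCount

/-!
Almost all members of the universal family over a number field.
-/

set_option autoImplicit false
set_option linter.all false

open Polynomial Filter Topology

namespace Q45.Tate

open Pool.Agent.Y160.T3 (mF bF mF_eq mF_inj mF_monic mF_natDegree mF_of bF_deg bF_coeff bF_of
  bF_add GoodP irr_count)

section maps

variable {A : Type} [CommRing A] {n m : ℕ}

/-- The polynomial `T`. -/
noncomputable def fT (n m : ℕ) (v : Fin (n + (m + (m + m))) → A) : A[X] :=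
  mF fun i : Fin n => v (Fin.castAdd (m + (m + m)) i)

/-- The polynomial `x`. -/
noncomputable def fX (n m : ℕ) (v : Fin (n + (m + (m + m))) → A) : A[X] :=
  bF fun i : Fin m => v (Fin.natAdd n (Fin.castAdd (m + m) i))

/-- The polynomial `y`. -/
noncomputable def fY (n m : ℕ) (v : Fin (n + (m + (m + m))) → A) : A[X] :=
  bF fun i : Fin m => v (Fin.natAdd n (Fin.natAdd m (Fin.castAdd m i)))

/-- The polynomial `z`. -/
noncomputable def fZ (n m : ℕ) (v : Fin (n + (m + (m + m))) → A) : A[X] :=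
  bF fun i : Fin m => v (Fin.natAdd n (Fin.natAdd m (Fin.natAdd m i)))

variable {B : Type} [CommRing B] (f : A →+* B)

theorem mF_map (a : Fin n → A) : (mF a).map f = mF fun i => f (a i) := by
  unfold mF
  simp [Polynomial.map_sum]

theorem bF_map (a : Fin n → A) : (bF a).map f = bF fun i => f (a i) := by
  unfold bF
  simp [Polynomial.map_sum]

variable (v : Fin (n + (m + (m + m))) → A)

theorem fT_map : (fT n m v).map f = fT n m (fun i => f (v i)) := mF_map f _
theorem fX_map : (fX n m v).map f = fX n m (fun i => f (v i)) := bF_map f _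
theorem fY_map : (fY n m v).map f = fY n m (fun i => f (v i)) := bF_map f _
theorem fZ_map : (fZ n m v).map f = fZ n m (fun i => f (v i)) := bF_map f _

theorem deg_bF {m : ℕ} (hm : 0 < m) (a : Fin m → A) : (bF a).natDegree ≤ m - 1 := by
  rw [natDegree_le_iff_degree_le]
  have h := bF_deg a
  rcases eq_or_ne (bF a) 0 with h0 | h0
  · rw [h0, degree_zero]; exact bot_le
  · rw [degree_eq_natDegree h0] at h ⊢
    have h1 : (bF a).natDegree < m := by exact_mod_cast h
    exact_mod_cast (by omega : (bF a).natDegree ≤ m - 1)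

end maps

/-! ### The six shifts -/

section shifts

variable {A : Type} [CommRing A]

/-- The six polynomials are `T + sh i x y z`. -/
def sh (i : Fin 6) (x y z : A) : A :=
  match i with
  | 0 => 4 * x ^ 2 + 4 * (y ^ 2 * z ^ 2)
  | 1 => 4 * y ^ 2 + 4 * (z ^ 2 * x ^ 2)
  | 2 => 4 * z ^ 2 + 4 * (x ^ 2 * y ^ 2)
  | 3 => -(8 * (x * y * z))
  | 4 => 8 * (x * y * z)
  | 5 => -(1 - (x ^ 2 + y ^ 2 + z ^ 2)) ^ 2 + 4 * (x ^ 2 * y ^ 2 + y ^ 2 * z ^ 2 + z ^ 2 * x ^ 2)

theorem sh_map {B : Type} [CommRing B] (f : A →+* B) (i : Fin 6) (x y z : A) :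
    f (sh i x y z) = sh i (f x) (f y) (f z) := by
  fin_cases i <;> simp [sh, map_ofNat]

theorem sh_deg (i : Fin 6) {x y z : A[X]} {D : ℕ} (hx : x.natDegree ≤ D) (hy : y.natDegree ≤ D)
    (hz : z.natDegree ≤ D) : (sh i x y z).natDegree ≤ 4 * D := by
  have c4 : (4 : A[X]).natDegree ≤ 0 := le_of_eq (natDegree_ofNat 4)
  have c8 : (8 : A[X]).natDegree ≤ 0 := le_of_eq (natDegree_ofNat 8)
  have c1 : (1 : A[X]).natDegree ≤ 0 := le_of_eq natDegree_one
  have sq : ∀ {u : A[X]}, u.natDegree ≤ D → (u ^ 2).natDegree ≤ 2 * D := fun h =>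
    natDegree_pow_le_of_le 2 h
  have pr : ∀ {u w : A[X]}, u.natDegree ≤ D → w.natDegree ≤ D →
      (u ^ 2 * w ^ 2).natDegree ≤ 4 * D := fun h h' =>
    (natDegree_mul_le_of_le (sq h) (sq h')).trans (by omega)
  have m4 : ∀ {u : A[X]} {d : ℕ}, u.natDegree ≤ d → (4 * u).natDegree ≤ d := fun h =>
    (natDegree_mul_le_of_le c4 h).trans (by omega)
  have m8 : ∀ {u : A[X]} {d : ℕ}, u.natDegree ≤ d → (8 * u).natDegree ≤ d := fun h =>
    (natDegree_mul_le_of_le c8 h).trans (by omega)
  have ad : ∀ {u w : A[X]} {d : ℕ}, u.natDegree ≤ d → w.natDegree ≤ d →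
      (u + w).natDegree ≤ d := fun h h' => natDegree_add_le_of_degree_le h h'
  have up : ∀ {u : A[X]}, u.natDegree ≤ 2 * D → u.natDegree ≤ 4 * D := fun h => by omega
  have x3 : (x * y * z).natDegree ≤ 4 * D :=
    (natDegree_mul_le_of_le (natDegree_mul_le_of_le hx hy) hz).trans (by omega)
  fin_cases i
  · exact ad (m4 (up (sq hx))) (m4 (pr hy hz))
  · exact ad (m4 (up (sq hy))) (m4 (pr hz hx))
  · exact ad (m4 (up (sq hz))) (m4 (pr hx hy))
  · show (-(8 * (x * y * z))).natDegree ≤ _
    rw [natDegree_neg]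
    exact m8 x3
  · exact m8 x3
  · show (-(1 - (x ^ 2 + y ^ 2 + z ^ 2)) ^ 2 +
      4 * (x ^ 2 * y ^ 2 + y ^ 2 * z ^ 2 + z ^ 2 * x ^ 2)).natDegree ≤ _
    refine ad ?_ (m4 (ad (ad (pr hx hy) (pr hy hz)) (pr hz hx)))
    rw [natDegree_neg]
    refine (natDegree_pow_le_of_le 2 (m := 2 * D) ?_).trans (by omega)
    refine (natDegree_sub_le_of_le (m := 2 * D) (n := 2 * D) (c1.trans (by omega))
      (ad (ad (sq hx) (sq hy)) (sq hz))).trans (by simp)

end shifts

section poly

variable {A : Type} [CommRing A] {n m : ℕ}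

theorem fT_degree [Nontrivial A] (v : Fin (n + (m + (m + m))) → A) :
    (fT n m v).degree = n := by
  have h : (mF fun i : Fin n => v (Fin.castAdd (m + (m + m)) i)).degree = n := by
    rw [degree_eq_natDegree (mF_monic _).ne_zero, mF_natDegree]
  exact h

/-- The six polynomials. -/
noncomputable def six (n m : ℕ) (i : Fin 6) (v : Fin (n + (m + (m + m))) → A) : A[X] :=
  fT n m v + sh i (fX n m v) (fY n m v) (fZ n m v)

theorem six_map {B : Type} [CommRing B] (f : A →+* B) (i : Fin 6)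
    (v : Fin (n + (m + (m + m))) → A) : (six n m i v).map f = six n m i (fun j => f (v j)) := by
  unfold six
  rw [Polynomial.map_add, fT_map, ← Polynomial.coe_mapRingHom, sh_map, Polynomial.coe_mapRingHom,
    fX_map, fY_map, fZ_map]

theorem sh_degree (hm : 0 < m) (hn : 4 * m < n + 4) (i : Fin 6)
    (v : Fin (n + (m + (m + m))) → A) :
    (sh i (fX n m v) (fY n m v) (fZ n m v)).degree < (n : WithBot ℕ) := by
  have h := sh_deg i (D := m - 1) (deg_bF hm fun i : Fin m => v (Fin.natAdd n (Fin.castAdd (m + m) i)))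
    (deg_bF hm fun i : Fin m => v (Fin.natAdd n (Fin.natAdd m (Fin.castAdd m i))))
    (deg_bF hm fun i : Fin m => v (Fin.natAdd n (Fin.natAdd m (Fin.natAdd m i))))
  have h1 : (sh i (fX n m v) (fY n m v) (fZ n m v)).natDegree < n := lt_of_le_of_lt h (by omega)
  exact degree_le_natDegree.trans_lt (by exact_mod_cast h1)

theorem six_monic [Nontrivial A] (hm : 0 < m) (hn : 4 * m < n + 4) (i : Fin 6)
    (v : Fin (n + (m + (m + m))) → A) : (six n m i v).Monic := by
  unfold six
  refine (mF_monic _).add_of_left ?_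
  show _ < (fT n m v).degree
  rw [fT_degree]
  exact sh_degree hm hn i v

theorem six_natDegree [Nontrivial A] (hm : 0 < m) (hn : 4 * m < n + 4) (i : Fin 6)
    (v : Fin (n + (m + (m + m))) → A) : (six n m i v).natDegree = n := by
  unfold six
  rw [natDegree_add_eq_left_of_degree_lt]
  · exact mF_natDegree _
  · rw [fT_degree]
    exact sh_degree hm hn i v

end poly

end Q45.Tate
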