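import Pool.Agent.Q45.Tate.Cnt

/-!
Members of the universal family which satisfy all the conditions.
-/

set_option autoImplicit false
set_option linter.all false

open Polynomial Filter Topology

namespace Q45.Tate

section gen

/-- The product of the linear forms which must not vanish. -/
def lf {R : Type} [CommRing R] (x y z : R) : R :=
  (x * y * z) * (((x ^ 2 - y ^ 2) * (y ^ 2 - z ^ 2) * (z ^ 2 - x ^ 2)) *
    ((1 - x ^ 2) * (1 - y ^ 2) * (1 - z ^ 2))) *
  (((1 + (x + y + z)) * ((1 + (x - y - z)) * ((1 + (-x + y - z)) * (1 + (-x - y + z))))) *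
    ((1 - (x + y + z)) * ((1 - (x - y - z)) * ((1 - (-x + y - z)) * (1 - (-x - y + z))))))

variable {k : Type} [Field k] {T x y z : k[X]}

theorem QQ_sh (i : Fin 3) : QQ T x y z i = T + sh ((![0, 1, 2] : Fin 3 → Fin 6) i) x y z := by
  fin_cases i
  · show q _ _ _ _ = _ + (4 * x ^ 2 + 4 * (y ^ 2 * z ^ 2))
    unfold q; ring
  · show q _ _ _ _ = _ + (4 * y ^ 2 + 4 * (z ^ 2 * x ^ 2))
    unfold q; ring
  · show q _ _ _ _ = _ + (4 * z ^ 2 + 4 * (x ^ 2 * y ^ 2))
    unfold q; ring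

theorem DD_sh (i : Fin 3) : DD T x y z i = T + sh ((![3, 4, 5] : Fin 3 → Fin 6) i) x y z := by
  fin_cases i
  · show T - 8 * (x * y * z) = T + -(8 * (x * y * z))
    ring
  · show T + 8 * (x * y * z) = T + 8 * (x * y * z)
    rfl
  · show r _ _ _ _ = T + (-(1 - (x ^ 2 + y ^ 2 + z ^ 2)) ^ 2 +
      4 * (x ^ 2 * y ^ 2 + y ^ 2 * z ^ 2 + z ^ 2 * x ^ 2))
    unfold r; ring

theorem sh_lt (i : Fin 6) {D : ℕ} (hx : x.natDegree ≤ D) (hy : y.natDegree ≤ D)
    (hz : z.natDegree ≤ D) (hT : 4 * D < T.natDegree) :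
    (sh i x y z).degree < T.degree := by
  have h := sh_deg i hx hy hz
  have hT0 : T ≠ 0 := by rintro rfl; simp at hT
  rw [degree_eq_natDegree hT0]
  exact degree_le_natDegree.trans_lt (by exact_mod_cast lt_of_le_of_lt h hT)

theorem dvd_eq' {p q : k[X]} (hq : q ≠ 0) (h : p.natDegree = q.natDegree)
    (hl : p.leadingCoeff = q.leadingCoeff) (hd : p ∣ q) : p = q := by
  obtain ⟨c, hc⟩ := hd
  have hp0 : p ≠ 0 := by rintro rfl; exact hq (by rw [hc, zero_mul])
  have hc0 : c ≠ 0 := by rintro rfl; exact hq (by rw [hc, mul_zero])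
  have h1 := natDegree_mul hp0 hc0
  rw [← hc] at h1
  have h2 : c.natDegree = 0 := by omega
  have h3 := leadingCoeff_mul p c
  rw [← hc, ← hl] at h3
  have h4 : c.leadingCoeff = 1 := by
    have := leadingCoeff_ne_zero.2 hp0
    exact (mul_left_cancel₀ this (by rw [mul_one]; exact h3)).symm
  have h5 : c = 1 := by
    rw [eq_C_of_natDegree_eq_zero h2] at h4 ⊢
    rw [leadingCoeff_C] at h4
    rw [h4, C_1]
  rw [hc, h5, mul_one]

theorem good_gen (h2k : (2 : k) ≠ 0) {D : ℕ} (hx : x.natDegree ≤ D) (hy : y.natDegree ≤ D)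
    (hz : z.natDegree ≤ D) (hT : 4 * D < T.natDegree) (hodd : Odd T.natDegree)
    (nd : lf x y z ≠ 0) (irr : ∀ i, Irreducible (T + sh i x y z))
    (sep : ∀ i, (T + sh i x y z).Separable) : Good T x y z := by
  have deg : ∀ i, (T + sh i x y z).natDegree = T.natDegree := fun i =>
    natDegree_add_eq_left_of_degree_lt (sh_lt i hx hy hz hT)
  have lc : ∀ i, (T + sh i x y z).leadingCoeff = T.leadingCoeff := fun i =>
    leadingCoeff_add_of_degree_lt' (sh_lt i hx hy hz hT)
  unfold lf at nd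
  simp only [mul_ne_zero_iff] at nd
  obtain ⟨⟨⟨⟨hx0, hy0⟩, hz0⟩, ⟨⟨hxy, hyz⟩, hzx⟩, ⟨hx1, hy1⟩, hz1⟩, ⟨p1, p2, p3, p4⟩,
    ⟨m1, m2, m3, m4⟩⟩ := nd
  have f4 : (4 : k[X]) ≠ 0 := by
    rw [← C_ofNat]
    exact C_ne_zero.2 (four_ne h2k)
  have f16 : (16 : k[X]) ≠ 0 := by
    have h := sixteen_ne h2k
    have h1 : (16 : k) ≠ 0 := fun h0 => h (by rw [h0, neg_zero])
    rw [← C_ofNat]
    exact C_ne_zero.2 h1
  -- the polynomials are different
  have q01 : q T x y z ≠ q T y z x := by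
    intro h
    have h1 := q_sub T x y z
    rw [h, sub_self] at h1
    have h2 : (4 : k[X]) * ((x ^ 2 - y ^ 2) * (1 - z ^ 2)) = 0 := by
      rw [h1]; ring
    exact mul_ne_zero f4 (mul_ne_zero hxy hz1) h2
  have q12 : q T y z x ≠ q T z x y := by
    intro h
    have h1 := q_sub T y z x
    rw [h, sub_self] at h1
    have h2 : (4 : k[X]) * ((y ^ 2 - z ^ 2) * (1 - x ^ 2)) = 0 := by
      rw [h1]; ring
    exact mul_ne_zero f4 (mul_ne_zero hyz hx1) h2
  have q20 : q T z x y ≠ q T x y z := by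
    intro h
    have h1 := q_sub T z x y
    rw [h, sub_self] at h1
    have h2 : (4 : k[X]) * ((z ^ 2 - x ^ 2) * (1 - y ^ 2)) = 0 := by
      rw [h1]; ring
    exact mul_ne_zero f4 (mul_ne_zero hzx hy1) h2
  have d01 : T - 8 * (x * y * z) ≠ T + 8 * (x * y * z) := by
    intro h
    have h2 : (16 : k[X]) * (x * y * z) = 0 := by linear_combination -h
    exact mul_ne_zero f16 (mul_ne_zero (mul_ne_zero hx0 hy0) hz0) h2
  have d12 : T + 8 * (x * y * z) ≠ r T x y z := by
    intro h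
    have h1 := r_sub_plus T x y z
    rw [← h] at h1
    have h2 : (1 + (x + y + z)) * ((1 + (x - y - z)) * ((1 + (-x + y - z)) * (1 + (-x - y + z)))) =
      0 := by linear_combination h1
    exact mul_ne_zero p1 (mul_ne_zero p2 (mul_ne_zero p3 p4)) h2
  have d02 : T - 8 * (x * y * z) ≠ r T x y z := by
    intro h
    have h1 := r_sub_minus T x y z
    rw [← h] at h1
    have h2 : (1 - (x + y + z)) * ((1 - (x - y - z)) * ((1 - (-x + y - z)) * (1 - (-x - y + z)))) =
      0 := by linear_combination h1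
    exact mul_ne_zero m1 (mul_ne_zero m2 (mul_ne_zero m3 m4)) h2
  have irrQ : ∀ i, Irreducible (QQ T x y z i) := fun i => by rw [QQ_sh]; exact irr _
  have irrD : ∀ i, Irreducible (DD T x y z i) := fun i => by rw [DD_sh]; exact irr _
  have degQ : ∀ i, (QQ T x y z i).natDegree = T.natDegree := fun i => by rw [QQ_sh]; exact deg _
  have degD : ∀ i, (DD T x y z i).natDegree = T.natDegree := fun i => by rw [DD_sh]; exact deg _
  have lcQ : ∀ i, (QQ T x y z i).leadingCoeff = T.leadingCoeff := fun i => by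
    rw [QQ_sh]; exact lc _
  have lcD : ∀ i, (DD T x y z i).leadingCoeff = T.leadingCoeff := fun i => by
    rw [DD_sh]; exact lc _
  have h3n : Odd (3 * T.natDegree) := Odd.mul (by decide) hodd
  refine ⟨irrQ, fun i => by rw [QQ_sh]; exact sep _, ?_, irrD, fun i => by rw [DD_sh]; exact sep _,
    ?_, ?_, ?_⟩
  · intro i j hij h
    have h1 := dvd_eq' (irrQ j).ne_zero ((degQ i).trans (degQ j).symm) ((lcQ i).trans (lcQ j).symm) h
    fin_cases i <;> fin_cases j
    · exact hij rfl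
    · exact q01 h1
    · exact q20 h1.symm
    · exact q01 h1.symm
    · exact hij rfl
    · exact q12 h1
    · exact q20 h1
    · exact q12 h1.symm
    · exact hij rfl
  · intro i j hij h
    have h1 := dvd_eq' (irrD j).ne_zero ((degD i).trans (degD j).symm) ((lcD i).trans (lcD j).symm) h
    fin_cases i <;> fin_cases j
    · exact hij rfl
    · exact d01 h1
    · exact d02 h1
    · exact d01 h1.symm
    · exact hij rfl
    · exact d12 h1
    · exact d02 h1.symm
    · exact d12 h1.symm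
    · exact hij rfl
  · left
    have eB : cB T x y z = C 4 * (QQ T x y z 0 * QQ T x y z 1 * QQ T x y z 2) := by
      rw [C_ofNat]; rfl
    rw [eB, natDegree_C_mul (four_ne h2k),
      natDegree_mul (mul_ne_zero (irrQ 0).ne_zero (irrQ 1).ne_zero) (irrQ 2).ne_zero,
      natDegree_mul (irrQ 0).ne_zero (irrQ 1).ne_zero, degQ, degQ, degQ]
    convert h3n using 1
    ring
  · left
    rw [disc', natDegree_C_mul (sixteen_ne h2k),
      natDegree_mul (mul_ne_zero (irrD 0).ne_zero (irrD 1).ne_zero) (irrD 2).ne_zero,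
      natDegree_mul (irrD 0).ne_zero (irrD 1).ne_zero, degD, degD, degD]
    convert h3n using 1
    ring

end gen

section number

variable {n m : ℕ} {k : Type} [Field k] [CharZero k] {hm : 0 < m} {v : Fin (n + (m + (m + m))) → ℤ}

theorem good_of (hm' : 0 < m) (hn : 4 * m < n + 4) (hodd : Odd n) (hv : v ∉ Exc n m hm k) :
    Good (fT n m (fun j => (v j : k))) (fX n m (fun j => (v j : k)))
      (fY n m (fun j => (v j : k))) (fZ n m (fun j => (v j : k))) := by
  set w : Fin (n + (m + (m + m))) → k := fun j => (v j : k) with hw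
  have irr : ∀ i, Irreducible (fT n m w + sh i (fX n m w) (fY n m w) (fZ n m w)) :=
    fun i => irr_six hm' hn hv i
  have hTd : (fT n m w).natDegree = n := Pool.Agent.Y160.T3.mF_natDegree _
  have P : ∀ (e : Fin 3 → Fin 3), e ≠ (fun _ => 1) → ∀ (c : Fin 3),
      C (sg (e 0) : k) * fX n m w + C (sg (e 1) : k) * fY n m w + C (sg (e 2) : k) * fZ n m w +
        C (sg c : k) ≠ 0 :=
    fun e he c => poly_ne hv e he c
  have hdx : (fX n m w).natDegree ≤ m - 1 := deg_bF hm' _
  have hdy : (fY n m w).natDegree ≤ m - 1 := deg_bF hm' _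
  have hdz : (fZ n m w).natDegree ≤ m - 1 := deg_bF hm' _
  refine good_gen two_ne_zero hdx hdy hdz (by rw [hTd]; omega) (by rw [hTd]; exact hodd) ?_ irr
    fun i => (irr i).separable
  set T := fT n m w
  set x := fX n m w with hx
  set y := fY n m w with hy
  set z := fZ n m w with hz
  have s0 : C ((sg 0 : ℤ) : k) = -1 := by simp [sg]
  have s1 : C ((sg 1 : ℤ) : k) = 0 := by simp [sg]
  have s2 : C ((sg 2 : ℤ) : k) = 1 := by simp [sg]
  have e3 : ∀ a b c : Fin 3, (![a, b, c] : Fin 3 → Fin 3) 0 = a ∧ (![a, b, c] : Fin 3 → Fin 3) 1 = b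
    ∧ (![a, b, c] : Fin 3 → Fin 3) 2 = c := fun a b c => ⟨rfl, rfl, rfl⟩
  have A : ∀ (a b c d : Fin 3) (u1 u2 u3 u4 : k[X]), (![a, b, c] : Fin 3 → Fin 3) ≠ (fun _ => 1) →
      C ((sg a : ℤ) : k) = u1 → C ((sg b : ℤ) : k) = u2 → C ((sg c : ℤ) : k) = u3 →
      C ((sg d : ℤ) : k) = u4 → u1 * x + u2 * y + u3 * z + u4 ≠ 0 := by
    rintro a b c d u1 u2 u3 u4 h rfl rfl rfl rfl
    have := P ![a, b, c] h d
    rwa [(e3 _ _ _).1, (e3 _ _ _).2.1, (e3 _ _ _).2.2] at this
  have ne_of : ∀ {p q : k[X]}, q ≠ 0 → p = q → p ≠ 0 := fun h e => e ▸ h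
  have hx0 : x ≠ 0 := ne_of (A 2 1 1 1 _ _ _ _ (by decide) s2 s1 s1 s1) (by ring)
  have hy0 : y ≠ 0 := ne_of (A 1 2 1 1 _ _ _ _ (by decide) s1 s2 s1 s1) (by ring)
  have hz0 : z ≠ 0 := ne_of (A 1 1 2 1 _ _ _ _ (by decide) s1 s1 s2 s1) (by ring)
  have xy1 : x - y ≠ 0 := ne_of (A 2 0 1 1 _ _ _ _ (by decide) s2 s0 s1 s1) (by ring)
  have xy2 : x + y ≠ 0 := ne_of (A 2 2 1 1 _ _ _ _ (by decide) s2 s2 s1 s1) (by ring)
  have yz1 : y - z ≠ 0 := ne_of (A 1 2 0 1 _ _ _ _ (by decide) s1 s2 s0 s1) (by ring)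
  have yz2 : y + z ≠ 0 := ne_of (A 1 2 2 1 _ _ _ _ (by decide) s1 s2 s2 s1) (by ring)
  have zx1 : z - x ≠ 0 := ne_of (A 0 1 2 1 _ _ _ _ (by decide) s0 s1 s2 s1) (by ring)
  have zx2 : z + x ≠ 0 := ne_of (A 2 1 2 1 _ _ _ _ (by decide) s2 s1 s2 s1) (by ring)
  have x1 : 1 - x ≠ 0 := ne_of (A 0 1 1 2 _ _ _ _ (by decide) s0 s1 s1 s2) (by ring)
  have x2 : 1 + x ≠ 0 := ne_of (A 2 1 1 2 _ _ _ _ (by decide) s2 s1 s1 s2) (by ring)
  have y1 : 1 - y ≠ 0 := ne_of (A 1 0 1 2 _ _ _ _ (by decide) s1 s0 s1 s2) (by ring)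
  have y2 : 1 + y ≠ 0 := ne_of (A 1 2 1 2 _ _ _ _ (by decide) s1 s2 s1 s2) (by ring)
  have z1 : 1 - z ≠ 0 := ne_of (A 1 1 0 2 _ _ _ _ (by decide) s1 s1 s0 s2) (by ring)
  have z2 : 1 + z ≠ 0 := ne_of (A 1 1 2 2 _ _ _ _ (by decide) s1 s1 s2 s2) (by ring)
  have p1 : 1 + (x + y + z) ≠ 0 := ne_of (A 2 2 2 2 _ _ _ _ (by decide) s2 s2 s2 s2) (by ring)
  have p2 : 1 + (x - y - z) ≠ 0 := ne_of (A 2 0 0 2 _ _ _ _ (by decide) s2 s0 s0 s2) (by ring)
  have p3 : 1 + (-x + y - z) ≠ 0 := ne_of (A 0 2 0 2 _ _ _ _ (by decide) s0 s2 s0 s2) (by ring)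
  have p4 : 1 + (-x - y + z) ≠ 0 := ne_of (A 0 0 2 2 _ _ _ _ (by decide) s0 s0 s2 s2) (by ring)
  have m1 : 1 - (x + y + z) ≠ 0 := ne_of (A 0 0 0 2 _ _ _ _ (by decide) s0 s0 s0 s2) (by ring)
  have m2 : 1 - (x - y - z) ≠ 0 := ne_of (A 0 2 2 2 _ _ _ _ (by decide) s0 s2 s2 s2) (by ring)
  have m3 : 1 - (-x + y - z) ≠ 0 := ne_of (A 2 0 2 2 _ _ _ _ (by decide) s2 s0 s2 s2) (by ring)
  have m4 : 1 - (-x - y + z) ≠ 0 := ne_of (A 2 2 0 2 _ _ _ _ (by decide) s2 s2 s0 s2) (by ring)
  have fac : ∀ {a b : k[X]}, a - b ≠ 0 → a + b ≠ 0 → a ^ 2 - b ^ 2 ≠ 0 := by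
    intro a b h1 h2
    rw [show a ^ 2 - b ^ 2 = (a - b) * (a + b) by ring]
    exact mul_ne_zero h1 h2
  have fac1 : ∀ {a : k[X]}, 1 - a ≠ 0 → 1 + a ≠ 0 → 1 - a ^ 2 ≠ 0 := by
    intro a h1 h2
    rw [show 1 - a ^ 2 = (1 - a) * (1 + a) by ring]
    exact mul_ne_zero h1 h2
  unfold lf
  exact mul_ne_zero (mul_ne_zero (mul_ne_zero (mul_ne_zero hx0 hy0) hz0)
    (mul_ne_zero (mul_ne_zero (mul_ne_zero (fac xy1 xy2) (fac yz1 yz2)) (fac zx1 zx2))
      (mul_ne_zero (mul_ne_zero (fac1 x1 x2) (fac1 y1 y2)) (fac1 z1 z2))))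
    (mul_ne_zero (mul_ne_zero p1 (mul_ne_zero p2 (mul_ne_zero p3 p4)))
      (mul_ne_zero m1 (mul_ne_zero m2 (mul_ne_zero m3 m4))))

end number

/-! ### Function fields -/

section ffield

variable {κ k : Type} [Field κ] [Field k] [Algebra κ[X] k] [IsFractionRing κ[X] k]

/-- The embedding of the constants. -/
noncomputable def em (κ k : Type) [Field κ] [Field k] [Algebra κ[X] k] : κ →+* k :=
  (algebraMap κ[X] k).comp C

theorem irr_sub {G : κ[X]} (hG : 0 < G.natDegree) :
    Irreducible (G.map (em κ k) - C (algebraMap κ[X] k X)) := by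
  set P : κ[X][X] := G.map C - C X with hP
  have e : G.map (em κ k) - C (algebraMap κ[X] k X) = P.map (algebraMap κ[X] k) := by
    rw [hP, Polynomial.map_sub, Polynomial.map_C, Polynomial.map_map]
    rfl
  have hdeg : (C X : κ[X][X]).degree < (G.map (C : κ →+* κ[X])).degree := by
    rw [degree_map_eq_of_injective C_injective]
    refine lt_of_le_of_lt degree_C_le ?_
    exact natDegree_pos_iff_degree_pos.1 hG
  have hlc : P.leadingCoeff = C G.leadingCoeff := by
    rw [hP, leadingCoeff_sub_of_degree_lt hdeg, leadingCoeff_map_of_injective C_injective]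
  have hprim : P.IsPrimitive := by
    intro r hr
    obtain ⟨Q, hQ⟩ := hr
    have h1 : r ∣ P.leadingCoeff := by
      unfold leadingCoeff
      rw [hQ, coeff_C_mul]
      exact dvd_mul_right _ _
    rw [hlc] at h1
    refine isUnit_of_dvd_unit h1 (isUnit_C.2 (isUnit_iff_ne_zero.2 ?_))
    apply leadingCoeff_ne_zero.2
    rintro rfl
    simp at hG
  have hirr : Irreducible P := by
    have h1 : Irreducible (Bivariate.swap (R := κ) P) := by
      have h2 : Bivariate.swap (R := κ) P = C G - X := by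
        rw [hP, map_sub, Bivariate.swap_map_C, Bivariate.swap_X]
      rw [h2]
      have h3 : Associated (X - C G) (C G - X) := by
        refine ⟨-1, ?_⟩
        rw [Units.val_neg, Units.val_one]
        ring
      exact h3.irreducible (irreducible_X_sub_C G)
    exact (MulEquiv.irreducible_iff (Bivariate.swap (R := κ))).1 h1
  rw [e]
  exact (hprim.irreducible_iff_irreducible_map_fraction_map (K := k)).1 hirr

theorem sep_sub {G : κ[X]} (hG : 0 < G.natDegree) (hp : (G.natDegree : κ) ≠ 0) :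
    (G.map (em κ k) - C (algebraMap κ[X] k X)).Separable := by
  have inj : Function.Injective (em κ k) :=
    (IsFractionRing.injective κ[X] k).comp C_injective
  rw [separable_iff_derivative_ne_zero (irr_sub hG), derivative_sub, derivative_C, sub_zero,
    derivative_map]
  intro h
  have h1 : derivative G = 0 := by
    apply Polynomial.map_injective _ inj
    rw [h, Polynomial.map_zero]
  have h2 := congrArg (fun p : κ[X] => p.coeff (G.natDegree - 1)) h1
  simp only [coeff_derivative, coeff_zero] at h2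
  have h3 : G.natDegree - 1 + 1 = G.natDegree := by omega
  rw [h3] at h2
  have h4 : ((G.natDegree - 1 : ℕ) : κ) + 1 = (G.natDegree : κ) := by
    have h6 := congrArg (Nat.cast : ℕ → κ) h3
    rw [Nat.cast_add, Nat.cast_one] at h6
    exact h6
  rw [h4] at h2
  rcases mul_eq_zero.1 h2 with h5 | h5
  · exact (leadingCoeff_ne_zero.2 (by rintro rfl; simp at hG)) h5
  · exact hp h5

/-- Members of the family over function fields. -/
theorem good_ff (h2κ : (2 : κ) ≠ 0) {g x y z : κ[X]} (hx : 4 * x.natDegree < g.natDegree)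
    (hy : 4 * y.natDegree < g.natDegree) (hz : 4 * z.natDegree < g.natDegree)
    (hodd : Odd g.natDegree) (hp : (g.natDegree : κ) ≠ 0) (nd : lf x y z ≠ 0) :
    Good (g.map (em κ k) - C (algebraMap κ[X] k X)) (x.map (em κ k)) (y.map (em κ k))
      (z.map (em κ k)) := by
  have inj : Function.Injective (em κ k) :=
    (IsFractionRing.injective κ[X] k).comp C_injective
  have h2k : (2 : k) ≠ 0 := by
    intro h
    apply h2κ
    apply inj
    rw [map_zero, map_ofNat, h]
  have hg0 : 0 < g.natDegree := by omega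
  obtain ⟨D, hxD, hyD, hzD, hD⟩ : ∃ D, x.natDegree ≤ D ∧ y.natDegree ≤ D ∧ z.natDegree ≤ D ∧
      4 * D < g.natDegree :=
    ⟨max x.natDegree (max y.natDegree z.natDegree), by omega, by omega, by omega, by omega⟩
  have hTd : (g.map (em κ k) - C (algebraMap κ[X] k X)).natDegree = g.natDegree := by
    rw [natDegree_sub_C, natDegree_map_eq_of_injective inj]
  have hdeg : ∀ i, (g + sh i x y z).natDegree = g.natDegree := fun i =>
    natDegree_add_eq_left_of_degree_lt (sh_lt i hxD hyD hzD hD)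
  have key : ∀ i, g.map (em κ k) - C (algebraMap κ[X] k X) +
      sh i (x.map (em κ k)) (y.map (em κ k)) (z.map (em κ k)) =
      (g + sh i x y z).map (em κ k) - C (algebraMap κ[X] k X) := by
    intro i
    rw [Polynomial.map_add, ← Polynomial.coe_mapRingHom, sh_map]
    ring
  refine good_gen h2k (D := D) ?_ ?_ ?_ ?_ ?_ ?_ ?_ ?_
  · rw [natDegree_map_eq_of_injective inj]; exact hxD
  · rw [natDegree_map_eq_of_injective inj]; exact hyD
  · rw [natDegree_map_eq_of_injective inj]; exact hzD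
  · rw [hTd]; exact hD
  · rw [hTd]; exact hodd
  · have e : lf (x.map (em κ k)) (y.map (em κ k)) (z.map (em κ k)) = (lf x y z).map (em κ k) := by
      unfold lf
      simp only [Polynomial.map_mul, Polynomial.map_sub, Polynomial.map_add, Polynomial.map_pow,
        Polynomial.map_one, Polynomial.map_neg]
    rw [e]
    intro h
    apply nd
    apply Polynomial.map_injective _ inj
    rw [h, Polynomial.map_zero]
  · intro i
    rw [key]
    exact irr_sub (by rw [hdeg]; exact hg0)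
  · intro i
    rw [key]
    exact sep_sub (by rw [hdeg]; exact hg0) (by rw [hdeg]; exact hp)

end ffield

end Q45.Tate
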