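import Mathlib

/-!
The universal curve: identities.
-/

set_option autoImplicit false

namespace Q45.Tate

variable {R : Type*} [CommRing R]

/-- `q = T + 4 x² + 4 y² z²` -/
def q (T x y z : R) : R := T + 4 * x ^ 2 + 4 * (y ^ 2 * z ^ 2)

/-- `r = T - (1 - x² - y² - z²)² + 4 (x² y² + y² z² + z² x²)` -/
def r (T x y z : R) : R :=
  T - (1 - (x ^ 2 + y ^ 2 + z ^ 2)) ^ 2 + 4 * (x ^ 2 * y ^ 2 + y ^ 2 * z ^ 2 + z ^ 2 * x ^ 2)

/-- The coefficient `a` of `y² = x (x² + a x + b)`. -/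
def cA (T x y z : R) : R :=
  -4 * ((1 + (x ^ 2 + y ^ 2 + z ^ 2)) * T + 8 * (x ^ 2 * y ^ 2 + y ^ 2 * z ^ 2 + z ^ 2 * x ^ 2) +
    8 * (x * y * z) ^ 2)

/-- The coefficient `b` of `y² = x (x² + a x + b)`. -/
def cB (T x y z : R) : R := 4 * (q T x y z * q T y z x * q T z x y)

theorem disc (T x y z : R) : cA T x y z ^ 2 - 4 * cB T x y z =
    -16 * ((T - 8 * (x * y * z)) * (T + 8 * (x * y * z)) * r T x y z) := by
  unfold cA cB q r
  ring

theorem q_comm (T x y z : R) : q T x y z = q T x z y := by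
  unfold q; ring

theorem cA_rot (T x y z : R) : cA T x y z = cA T y z x := by
  unfold cA; ring

theorem cB_rot (T x y z : R) : cB T x y z = cB T y z x := by
  unfold cB; ring

theorem cA_neg (T x y z : R) : cA T (-x) (-y) (-z) = cA T x y z := by
  unfold cA; ring

theorem cB_neg (T x y z : R) : cB T (-x) (-y) (-z) = cB T x y z := by
  unfold cB q; ring

/-- The points of the curve. -/
theorem ptE (T x y z : R) :
    (4 * (y - z) * q T x y z * (T + 4 * (y * z) * (1 + x ^ 2 - (y - z) ^ 2))) ^ 2 =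
      (4 * (y - z) ^ 2 * q T x y z) * ((4 * (y - z) ^ 2 * q T x y z) ^ 2 +
        cA T x y z * (4 * (y - z) ^ 2 * q T x y z) + cB T x y z) := by
  unfold cA cB q
  ring

/-- The points of the isogenous curve. -/
theorem ptE' (T x y z : R) :
    (8 * (1 + (x + y + z)) * (T - 8 * (x * y * z)) * (T + 8 * (x * y * z) -
      4 * (x * y + y * z + z * x + x * y * z) * (1 + (x + y + z)))) ^ 2 =
      (-4 * (1 + (x + y + z)) ^ 2 * (T - 8 * (x * y * z))) *
        ((-4 * (1 + (x + y + z)) ^ 2 * (T - 8 * (x * y * z))) ^ 2 +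
        -2 * cA T x y z * (-4 * (1 + (x + y + z)) ^ 2 * (T - 8 * (x * y * z))) +
        (cA T x y z ^ 2 - 4 * cB T x y z)) := by
  unfold cA cB q
  ring

/-- The last point of the isogenous curve. -/
theorem ptE3 (T x y z : R) :
    (16 * r T x y z * (T - 4 * (1 - (x ^ 2 + y ^ 2 + z ^ 2)))) ^ 2 =
      (-16 * r T x y z) * ((-16 * r T x y z) ^ 2 + -2 * cA T x y z * (-16 * r T x y z) +
        (cA T x y z ^ 2 - 4 * cB T x y z)) := by
  rw [disc]
  unfold cA r
  ring

theorem r_sub_plus (T x y z : R) : r T x y z = (T + 8 * (x * y * z)) -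
    (1 + (x + y + z)) * ((1 + (x - y - z)) * ((1 + (-x + y - z)) * (1 + (-x - y + z)))) := by
  unfold r
  ring

theorem r_sub_minus (T x y z : R) : r T x y z = (T - 8 * (x * y * z)) -
    (1 - (x + y + z)) * ((1 - (x - y - z)) * ((1 - (-x + y - z)) * (1 - (-x - y + z)))) := by
  unfold r
  ring

theorem q_sub (T x y z : R) : q T x y z - q T y z x = 4 * ((x - y) * (x + y) * (1 - z ^ 2)) := by
  unfold q
  ring

end Q45.Tate
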