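import Pool.Agent.Q45.Tate.Fam

/-!
Almost all members of the universal family over a number field: counting.
-/

set_option autoImplicit false
set_option linter.all false

open Polynomial Filter Topology

namespace Q45.Tate

open Pool.Agent.Y160.T3 (mF bF mF_eq mF_inj mF_monic mF_natDegree mF_of bF_deg bF_coeff bF_of
  bF_add GoodP irr_count)

theorem bF_neg {A : Type} [CommRing A] {r : ℕ} (w : Fin r → A) : bF (-w) = -bF w := by
  have h := bF_add w (-w)
  rw [add_neg_cancel, Pool.Agent.Y160.T3.bF_zero] at h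
  linear_combination -h

section count

variable {n m : ℕ}

/-- Many vectors give an irreducible polynomial. -/
theorem cnt_irr (hn0 : 0 < n) (hm : 0 < m) (hn : 4 * m < n + 4) (i : Fin 6) (F : Type) [Field F]
    [Fintype F] (hF : 2 * (1 * n) + 2 ≤ Fintype.card F) :
    Fintype.card F ^ (n + (m + (m + m))) ≤ 2 * (1 * n) *
      {v : Fin (n + (m + (m + m))) → F | Irreducible (six n m i v)}.ncard := by
  classical
  have h := irr_count (m := n) (R := 1) hn0 odd_one F (one_dvd _) hF
  set G := (Finset.univ.filter fun a : Fin n → F => GoodP 1 (mF a)) with hG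
  set T : Finset ((Fin n → F) × (Fin (m + (m + m)) → F)) := G ×ˢ Finset.univ with hT
  have hTc : T.card = G.card * Fintype.card F ^ (m + (m + m)) := by
    rw [hT, Finset.card_product, Finset.card_univ, Fintype.card_fun, Fintype.card_fin]
  -- the shift
  let g : (Fin (m + (m + m)) → F) → F[X] := fun w =>
    sh i (bF fun j : Fin m => w (Fin.castAdd (m + m) j))
      (bF fun j : Fin m => w (Fin.natAdd m (Fin.castAdd m j)))
      (bF fun j : Fin m => w (Fin.natAdd m (Fin.natAdd m j)))
  let Φ : (Fin n → F) × (Fin (m + (m + m)) → F) → (Fin (n + (m + (m + m))) → F) := fun x =>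
    Fin.append (x.1 + -(fun j : Fin n => (g x.2).coeff j)) x.2
  have hgX : ∀ a w, fX n m (Fin.append a w : Fin (n + (m + (m + m))) → F) =
      bF fun j : Fin m => w (Fin.castAdd (m + m) j) := by
    intro a w
    unfold fX
    congr 1
    funext j
    rw [Fin.append_right]
  have hgY : ∀ a w, fY n m (Fin.append a w : Fin (n + (m + (m + m))) → F) =
      bF fun j : Fin m => w (Fin.natAdd m (Fin.castAdd m j)) := by
    intro a w
    unfold fY
    congr 1
    funext j
    rw [Fin.append_right]
  have hgZ : ∀ a w, fZ n m (Fin.append a w : Fin (n + (m + (m + m))) → F) =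
      bF fun j : Fin m => w (Fin.natAdd m (Fin.natAdd m j)) := by
    intro a w
    unfold fZ
    congr 1
    funext j
    rw [Fin.append_right]
  have hgT : ∀ a w, fT n m (Fin.append a w : Fin (n + (m + (m + m))) → F) = mF a := by
    intro a w
    unfold fT
    congr 1
    funext j
    rw [Fin.append_left]
  have hdeg : ∀ w, (g w).degree < (n : WithBot ℕ) := by
    intro w
    have := sh_degree hm hn i (Fin.append 0 w : Fin (n + (m + (m + m))) → F)
    rw [hgX, hgY, hgZ] at this
    exact this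
  have hsix : ∀ x, six n m i (Φ x) = mF x.1 := by
    intro x
    unfold six
    rw [hgT, hgX, hgY, hgZ]
    show mF (x.1 + -(fun j : Fin n => (g x.2).coeff j)) + g x.2 = mF x.1
    rw [mF_eq, mF_eq, bF_add, bF_neg, bF_of (hdeg x.2)]
    ring
  have hsub : Φ '' (T : Set _) ⊆ {v : Fin (n + (m + (m + m))) → F | Irreducible (six n m i v)} := by
    rintro _ ⟨x, hx, rfl⟩
    rw [Finset.mem_coe, hT, Finset.mem_product] at hx
    show Irreducible (six n m i (Φ x))
    rw [hsix]
    exact ((Finset.mem_filter.1 hx.1).2).1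
  have hinj : Set.InjOn Φ (T : Set _) := by
    intro x hx y hy h
    have h1 : x.1 = y.1 := by
      have := congrArg (six n m i) h
      rw [hsix, hsix] at this
      exact mF_inj this
    have h2 : x.2 = y.2 := by
      funext j
      have := congrFun h (Fin.natAdd n j)
      simp only [Φ, Fin.append_right] at this
      exact this
    exact Prod.ext h1 h2
  have h3 : T.card ≤ {v : Fin (n + (m + (m + m))) → F | Irreducible (six n m i v)}.ncard := by
    rw [← Set.ncard_coe_finset, ← Set.ncard_image_of_injOn hinj]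
    exact Set.ncard_le_ncard hsub (Set.toFinite _)
  calc Fintype.card F ^ (n + (m + (m + m))) =
      Fintype.card F ^ n * Fintype.card F ^ (m + (m + m)) := pow_add _ _ _
    _ ≤ (2 * (1 * n) * G.card) * Fintype.card F ^ (m + (m + m)) := Nat.mul_le_mul h le_rfl
    _ = 2 * (1 * n) * T.card := by rw [hTc]; ring
    _ ≤ _ := Nat.mul_le_mul le_rfl h3

/-- The constant coefficients. -/
def cX (n m : ℕ) (hm : 0 < m) : Fin (n + (m + (m + m))) := Fin.natAdd n (Fin.castAdd (m + m) ⟨0, hm⟩)
def cY (n m : ℕ) (hm : 0 < m) : Fin (n + (m + (m + m))) :=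
  Fin.natAdd n (Fin.natAdd m (Fin.castAdd m ⟨0, hm⟩))
def cZ (n m : ℕ) (hm : 0 < m) : Fin (n + (m + (m + m))) :=
  Fin.natAdd n (Fin.natAdd m (Fin.natAdd m ⟨0, hm⟩))

/-- The sign `-1`, `0` or `1`. -/
def sg (j : Fin 3) : ℤ := (j : ℤ) - 1

/-- A linear form in the constant coefficients, plus a constant. -/
def lin (n m : ℕ) (hm : 0 < m) (e : Fin 3 → Fin 3) {A : Type} [CommRing A]
    (v : Fin (n + (m + (m + m))) → A) : A :=
  (sg (e 0) : A) * v (cX n m hm) + (sg (e 1) : A) * v (cY n m hm) + (sg (e 2) : A) * v (cZ n m hm)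

theorem cnt_lin (hm : 0 < m) (e : Fin 3 → Fin 3) (he : e ≠ fun _ => 1) (c : Fin 3) (F : Type)
    [Field F] [Fintype F] :
    Fintype.card F ^ (n + (m + (m + m))) ≤ 2 *
      {v : Fin (n + (m + (m + m))) → F | lin n m hm e v + (sg c : F) ≠ 0}.ncard := by
  classical
  let f : (Fin (n + (m + (m + m))) → F) →+ F :=
    { toFun := fun v => lin n m hm e v
      map_zero' := by simp [lin]
      map_add' := fun v w => by
        unfold lin
        rw [Pi.add_apply, Pi.add_apply, Pi.add_apply]
        ring }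
  have hXY : cX n m hm ≠ cY n m hm := by
    unfold cX cY
    intro h
    have := congrArg Fin.val h
    simp at this
    omega
  have hXZ : cX n m hm ≠ cZ n m hm := by
    unfold cX cZ
    intro h
    have := congrArg Fin.val h
    simp at this
    omega
  have hYZ : cY n m hm ≠ cZ n m hm := by
    unfold cY cZ
    intro h
    have := congrArg Fin.val h
    simp at this
    omega
  have hsg : ∀ j : Fin 3, j ≠ 1 → ((sg j : ℤ) : F) * ((sg j : ℤ) : F) = 1 := by
    intro j hj
    fin_cases j
    · simp [sg]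
    · exact absurd rfl hj
    · simp [sg]
  have hsurj : Function.Surjective f := by
    intro t
    obtain ⟨j, hj⟩ : ∃ j, e j ≠ 1 := by
      by_contra hcon
      push Not at hcon
      exact he (funext hcon)
    fin_cases j
    · refine ⟨Pi.single (cX n m hm) ((sg (e 0) : F) * t), ?_⟩
      show lin n m hm e _ = t
      unfold lin
      rw [Pi.single_eq_same, Pi.single_eq_of_ne (Ne.symm hXY), Pi.single_eq_of_ne (Ne.symm hXZ),
        ← mul_assoc, hsg (e 0) hj]
      ring
    · refine ⟨Pi.single (cY n m hm) ((sg (e 1) : F) * t), ?_⟩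
      show lin n m hm e _ = t
      unfold lin
      rw [Pi.single_eq_same, Pi.single_eq_of_ne hXY, Pi.single_eq_of_ne (Ne.symm hYZ),
        ← mul_assoc, hsg (e 1) hj]
      ring
    · refine ⟨Pi.single (cZ n m hm) ((sg (e 2) : F) * t), ?_⟩
      show lin n m hm e _ = t
      unfold lin
      rw [Pi.single_eq_same, Pi.single_eq_of_ne hXZ, Pi.single_eq_of_ne hYZ,
        ← mul_assoc, hsg (e 2) hj]
      ring
  have hS : Fintype.card F ≤ 2 * {y : F | y + (sg c : F) ≠ 0}.ncard := by
    have h1 : {y : F | y + (sg c : F) ≠ 0} = (({-(sg c : F)} : Finset F)ᶜ : Finset F) := by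
      ext y
      simp only [Set.mem_setOf_eq, Finset.coe_compl, Finset.coe_singleton, Set.mem_compl_iff,
        Set.mem_singleton_iff]
      rw [not_iff_not]
      exact ⟨fun h => by linear_combination h, fun h => by rw [h]; ring⟩
    rw [h1, Set.ncard_coe_finset, Finset.card_compl, Finset.card_singleton]
    have := Fintype.one_lt_card (α := F)
    omega
  have h2 := pull f hsurj hS
  rw [Fintype.card_fun, Fintype.card_fin] at h2
  exact h2

/-- The tests. -/
def TI (n m : ℕ) (i : Fin 6) (F : Type) [Field F] (v : Fin (n + (m + (m + m))) → F) : Prop :=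
  Irreducible (six n m i v)

def TL (n m : ℕ) (hm : 0 < m) (e : Fin 3 → Fin 3) (c : Fin 3) (F : Type) [Field F]
    (v : Fin (n + (m + (m + m))) → F) : Prop := lin n m hm e v + (sg c : F) ≠ 0

/-- The set of the exceptions. -/
def Exc (n m : ℕ) (hm : 0 < m) (k : Type) [Field k] : Set (Fin (n + (m + (m + m))) → ℤ) :=
  (⋃ i : Fin 6, Bd k (TI n m i)) ∪
    ⋃ x : {e : Fin 3 → Fin 3 // e ≠ fun _ => 1} × Fin 3, Bd k (TL n m hm x.1.1 x.2)

theorem exc_zd (hn0 : 0 < n) (hm : 0 < m) (hn : 4 * m < n + 4) (k : Type) [Field k]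
    [NumberField k] : Zd (Exc n m hm k) := by
  refine Zd.union (Zd.iUnion fun i => ?_) (Zd.iUnion fun x => ?_)
  · exact zd_of k _ ⟨2 * (1 * n), 2 * (1 * n) + 2, fun F _ _ hF => cnt_irr hn0 hm hn i F hF⟩
  · exact zd_of k _ ⟨2, 0, fun F _ _ _ => cnt_lin hm x.1.1 x.1.2 x.2 F⟩

section good

variable {k : Type} [Field k] [CharZero k] {hm : 0 < m} {v : Fin (n + (m + (m + m))) → ℤ}

theorem irr_six (hm : 0 < m) (hn : 4 * m < n + 4) (hv : v ∉ Exc n m hm k) (i : Fin 6) :
    Irreducible (six n m i (fun j => (v j : k))) := by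
  unfold Exc at hv
  rw [Set.mem_union, not_or] at hv
  obtain ⟨P, hP, σ, hT⟩ := of_not_bd (fun h => hv.1 (Set.mem_iUnion.2 ⟨i, h⟩))
  have h1 : Irreducible ((six n m i v).map (Int.castRingHom (ZMod P))) := by
    rw [six_map]
    exact hT
  have h2 := irr_up σ (six_monic hm hn i v) h1
  rw [six_map] at h2
  exact h2

theorem lin_ne (hv : v ∉ Exc n m hm k) (e : Fin 3 → Fin 3) (he : e ≠ fun _ => 1) (c : Fin 3) :
    lin n m hm e v + sg c ≠ 0 := by
  unfold Exc at hv
  rw [Set.mem_union, not_or] at hv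
  obtain ⟨P, hP, σ, hT⟩ := of_not_bd (fun h => hv.2 (Set.mem_iUnion.2 ⟨(⟨e, he⟩, c), h⟩))
  intro h
  apply hT
  have h1 := congrArg (Int.cast : ℤ → ZMod P) h
  unfold lin at h1 ⊢
  push_cast at h1
  exact h1

/-- No linear relation between the polynomials. -/
theorem poly_ne (hv : v ∉ Exc n m hm k) (e : Fin 3 → Fin 3) (he : e ≠ fun _ => 1) (c : Fin 3) :
    (C (sg (e 0) : k)) * fX n m (fun j => (v j : k)) + (C (sg (e 1) : k)) *
      fY n m (fun j => (v j : k)) + (C (sg (e 2) : k)) * fZ n m (fun j => (v j : k)) +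
      C (sg c : k) ≠ 0 := by
  intro h
  have h1 := congrArg (fun p : k[X] => p.coeff 0) h
  simp only [coeff_add, coeff_C_mul, coeff_C_zero, coeff_zero] at h1
  have hX : (fX n m (fun j => (v j : k))).coeff 0 = (v (cX n m hm) : k) :=
    bF_coeff (fun i : Fin m => ((v (Fin.natAdd n (Fin.castAdd (m + m) i)) : ℤ) : k)) ⟨0, hm⟩
  have hY : (fY n m (fun j => (v j : k))).coeff 0 = (v (cY n m hm) : k) :=
    bF_coeff (fun i : Fin m => ((v (Fin.natAdd n (Fin.natAdd m (Fin.castAdd m i))) : ℤ) : k)) ⟨0, hm⟩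
  have hZ : (fZ n m (fun j => (v j : k))).coeff 0 = (v (cZ n m hm) : k) :=
    bF_coeff (fun i : Fin m => ((v (Fin.natAdd n (Fin.natAdd m (Fin.natAdd m i))) : ℤ) : k)) ⟨0, hm⟩
  rw [hX, hY, hZ] at h1
  apply lin_ne hv e he c
  unfold lin
  have h2 : ((sg (e 0) * v (cX n m hm) + sg (e 1) * v (cY n m hm) + sg (e 2) * v (cZ n m hm) +
      sg c : ℤ) : k) = 0 := by
    push_cast
    exact h1
  have h3 : sg (e 0) * v (cX n m hm) + sg (e 1) * v (cY n m hm) + sg (e 2) * v (cZ n m hm) +
      sg c = 0 := by exact_mod_cast h2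
  simpa using h3

end good

end count

end Q45.Tate
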