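import Pool.Agent.Q45.Tate.Main
import Pool.Agent.W309.RK.Short

/-!
Independent points.
-/

set_option autoImplicit false
set_option linter.all false

open Polynomial IsDedekindDomain WeierstrassCurve WeierstrassCurve.Affine
open scoped Classical

namespace Q45.Tate

open Pool.Agent.TH115.GD Pool.Agent.W309.RK

/-- A criterion for independence. -/
theorem indep_of_even {A : Type*} [AddCommGroup A] {n : ℕ} (P : Fin n → A)
    (hP : ∀ c : Fin n → ℤ, (∑ i, c i • P i) + (∑ i, c i • P i) = 0 →
      ∑ i, c i • P i = 0 ∧ ∀ i, Even (c i)) :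
    LinearIndependent ℤ P := by
  rw [Fintype.linearIndependent_iff]
  intro g hg
  have key : ∀ m : ℕ, ∃ c : Fin n → ℤ, (∀ i, g i = 2 ^ m * c i) ∧
      (∑ i, c i • P i) = 0 := by
    intro m
    induction m with
    | zero => exact ⟨g, fun i => by rw [pow_zero, one_mul], hg⟩
    | succ m ih =>
      obtain ⟨c, hc, hs⟩ := ih
      have he := (hP c (by rw [hs, add_zero])).2
      choose e hce using he
      have h2 : ∑ i, c i • P i = (∑ i, e i • P i) + (∑ i, e i • P i) := by
        rw [← Finset.sum_add_distrib]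
        exact Finset.sum_congr rfl fun i _ => by rw [hce i, add_smul]
      refine ⟨e, fun i => by rw [hc i, hce i]; ring, ?_⟩
      exact (hP e (by rw [← h2, hs])).1
  intro i
  by_contra h0
  obtain ⟨m, hm⟩ : ∃ m : ℕ, (g i).natAbs < 2 ^ m := ⟨_, Nat.lt_two_pow_self⟩
  obtain ⟨c, hc, -⟩ := key m
  have h1 := hc i
  have h3 : c i ≠ 0 := by
    intro h; rw [h, mul_zero] at h1; exact h0 h1
  have h4 : (g i).natAbs = 2 ^ m * (c i).natAbs := by
    rw [h1, Int.natAbs_mul, Int.natAbs_pow]; rfl
  have h5 : 0 < (c i).natAbs := Int.natAbs_pos.2 h3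
  have h6 := Nat.le_mul_of_pos_right (2 ^ m) h5
  omega

section par

variable {k K : Type} [Field k] [Field K] [Algebra k[X] K] [IsFractionRing k[X] K]

/-- The identification of `K` with `k(t)`. -/
noncomputable def idf (k K : Type) [Field k] [Field K] [Algebra k[X] K] [IsFractionRing k[X] K] :
    K ≃ₐ[k[X]] RatFunc k :=
  IsLocalization.algEquiv (nonZeroDivisors k[X]) K (RatFunc k)

/-- The order at an irreducible polynomial (with the opposite sign). -/
noncomputable def ordK (π : k[X]) (hπ : Irreducible π) (x : K) : ℤ := ordAt π hπ (idf k K x)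

theorem ordK_mul (π : k[X]) (hπ : Irreducible π) (f g : K) (hf : f ≠ 0) (hg : g ≠ 0) :
    ordK π hπ (f * g) = ordK π hπ f + ordK π hπ g := by
  unfold ordK
  rw [map_mul, ordAt_mul]
  · exact (map_ne_zero_iff _ (idf k K).injective).2 hf
  · exact (map_ne_zero_iff _ (idf k K).injective).2 hg

theorem ordK_alg (π : k[X]) (hπ : Irreducible π) (p : k[X]) :
    ordK π hπ (algebraMap k[X] K p) = ordAt π hπ (algebraMap k[X] (RatFunc k) p) := by
  unfold ordK
  rw [AlgEquiv.commutes]

/-- The parity of the order. -/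
noncomputable def par (π : k[X]) (hπ : Irreducible π) (x : K) : ZMod 2 := (ordK π hπ x : ZMod 2)

theorem par_mul (π : k[X]) (hπ : Irreducible π) {f g : K} (hf : f ≠ 0) (hg : g ≠ 0) :
    par π hπ (f * g) = par π hπ f + par π hπ g := by
  unfold par
  rw [ordK_mul π hπ f g hf hg]
  push_cast
  rfl

theorem par_sq (π : k[X]) (hπ : Irreducible π) {f : K} (hf : f ≠ 0) :
    par π hπ (f ^ 2) = 0 := by
  rw [pow_two, par_mul π hπ hf hf, CharTwo.add_self_eq_zero]

theorem par_self (π : k[X]) (hπ : Irreducible π) : par π hπ (algebraMap k[X] K π) = 1 := by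
  unfold par
  rw [ordK_alg, ordAt_self]
  decide

theorem par_not_dvd (π : k[X]) (hπ : Irreducible π) {f : k[X]} (hf : ¬ π ∣ f) :
    par π hπ (algebraMap k[X] K f) = 0 := by
  unfold par
  rw [ordK_alg, ordAt_of_not_dvd π hπ hf, Int.cast_zero]

theorem par_const (π : k[X]) (hπ : Irreducible π) {c : k} (hc : c ≠ 0) :
    par π hπ (algebraMap k[X] K (C c)) = 0 :=
  par_not_dvd π hπ (fun hd => hπ.not_isUnit
    (isUnit_of_dvd_unit hd (isUnit_C.2 (isUnit_iff_ne_zero.2 hc))))

end par

section quad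

variable {K : Type} [Field K]

/-- Elements of `K` which are squares in `K(√d)`. -/
theorem sq_quad (h2 : (2 : K) ≠ 0) {d : K} {x : K} {w : QuadraticAlgebra K d 0}
    (h : algebraMap K (QuadraticAlgebra K d 0) x = w * w) : x = w.re ^ 2 ∨ x = w.im ^ 2 * d := by
  have h1 := congrArg QuadraticAlgebra.re h
  have h3 := congrArg QuadraticAlgebra.im h
  rw [QuadraticAlgebra.algebraMap_re, QuadraticAlgebra.re_mul] at h1
  rw [QuadraticAlgebra.algebraMap_im, QuadraticAlgebra.im_mul] at h3
  have h4 : (2 : K) * (w.re * w.im) = 0 := by linear_combination -h3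
  rcases mul_eq_zero.1 h4 with h5 | h5
  · exact absurd h5 h2
  · rcases mul_eq_zero.1 h5 with h6 | h6
    · right
      rw [h6] at h1
      linear_combination h1
    · left
      rw [h6] at h1
      linear_combination h1

end quad

section ext

variable {K L : Type} [Field K] [Field L] [Algebra K L] {a b d : K} {ω : L}

/-- `x = 0` is a root. -/
theorem root0 (a b : K) : HasRoot ((crvT a b).baseChange L).toAffine 0 where
  a1 := a1T a b
  a3 := a3T a b
  root := by rw [a6T]; ring

/-- The other root. -/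
noncomputable def th (a : K) (ω : L) : L := (ω - algebraMap K L a) / 2

theorem two_L (L : Type) [Field L] [Algebra K L] (h2 : (2 : K) ≠ 0) : (2 : L) ≠ 0 := by
  have h := (map_ne_zero_iff (algebraMap K L) (algebraMap K L).injective).2 h2
  rwa [map_ofNat] at h

theorem d_eq (hd : d = a ^ 2 - 4 * b) : algebraMap K L d = algebraMap K L a ^ 2 -
    4 * algebraMap K L b := by
  have := congrArg (algebraMap K L) hd
  rw [map_sub, map_mul, map_pow, map_ofNat] at this
  exact this

theorem rootTh (h2 : (2 : K) ≠ 0) (hd : d = a ^ 2 - 4 * b) (hω : ω ^ 2 = algebraMap K L d) :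
    HasRoot ((crvT a b).baseChange L).toAffine (th a ω) where
  a1 := a1T a b
  a3 := a3T a b
  root := by
    have h2L := two_L L h2
    rw [a2T, a4T, a6T]
    rw [d_eq hd] at hω
    unfold th
    field_simp
    linear_combination (ω - algebraMap K L a) * hω

/-- `x(P) - θ` modulo squares. -/
noncomputable def dl (a b : K) (ω : L) (P : Pt (crvT a b) K) : L :=
  del ((crvT a b).baseChange L).toAffine (th a ω) (act (crvT a b) (Algebra.ofId K L) P)

theorem dl_ne (h2 : (2 : K) ≠ 0) (hd : d = a ^ 2 - 4 * b) (hω : ω ^ 2 = algebraMap K L d)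
    (P : Pt (crvT a b) K) : dl a b ω P ≠ 0 := del_ne (rootTh h2 hd hω) _

theorem dl_add (h2 : (2 : K) ≠ 0) (hd : d = a ^ 2 - 4 * b) (hω : ω ^ 2 = algebraMap K L d)
    (P Q : Pt (crvT a b) K) : ∃ c : L, c ≠ 0 ∧ dl a b ω (P + Q) =
      c ^ 2 * (dl a b ω P * dl a b ω Q) := by
  have h := del_add (rootTh h2 hd hω) (act (crvT a b) (Algebra.ofId K L) P)
    (act (crvT a b) (Algebra.ofId K L) Q)
  rw [← map_add] at h
  exact h

/-- The points of the image of the dual isogeny. -/
structure FromX (a b d : K) (R : Pt (crvT a b) K) (X : K) : Prop where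
  ne : X ≠ 0
  ex : ∃ (x y : K) (h : _), R = Point.some x y h ∧ 4 * X * x = X ^ 2 - 2 * a * X + d

theorem dl_from (h2 : (2 : K) ≠ 0) (hd : d = a ^ 2 - 4 * b) (hω : ω ^ 2 = algebraMap K L d)
    (hωK : ∀ r : K, algebraMap K L r ≠ ω) {R : Pt (crvT a b) K} {X : K} (h : FromX a b d R X) :
    ∃ s : L, algebraMap K L X * dl a b ω R = s ^ 2 := by
  obtain ⟨hX, x, y, hn, rfl, hx⟩ := h
  have h2L := two_L L h2
  have hXL : algebraMap K L X ≠ 0 := (_root_.map_ne_zero _).2 hX
  have e : ∃ hn', act (crvT a b) (Algebra.ofId K L) (Point.some x y hn) =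
      Point.some (algebraMap K L x) (algebraMap K L y) hn' := ⟨_, rfl⟩
  obtain ⟨hn', e⟩ := e
  have hne : algebraMap K L x ≠ th a ω := by
    intro h
    apply hωK (2 * x + a)
    rw [map_add, map_mul, map_ofNat, h]
    unfold th
    field_simp
    ring
  have hd1 : dl a b ω (Point.some x y hn) = algebraMap K L x - th a ω := by
    unfold dl
    rw [e]
    show (if _ then _ else _) = _
    rw [if_neg hne]
  rw [hd1]
  refine ⟨(algebraMap K L X - ω) / 2, ?_⟩
  have hx' : 4 * algebraMap K L X * algebraMap K L x = algebraMap K L X ^ 2 -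
      2 * algebraMap K L a * algebraMap K L X + algebraMap K L d := by
    have := congrArg (algebraMap K L) hx
    simpa only [map_mul, map_add, map_sub, map_pow, map_ofNat] using this
  unfold th
  field_simp
  linear_combination hx' - hω

theorem half_one (h2 : (2 : K) ≠ 0) (hd : d = a ^ 2 - 4 * b) (hω : ω ^ 2 = algebraMap K L d)
    (hωK : ∀ r : K, algebraMap K L r ≠ ω) {R Y : Pt (crvT a b) K} {X : K}
    (h : FromX a b d R X) (hY : R = Y + Y) : ∃ w : L, algebraMap K L X = w * w := by
  obtain ⟨s, hs⟩ := dl_from h2 hd hω hωK h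
  obtain ⟨c, hc, hcc⟩ := dl_add h2 hd hω Y Y
  have hn := dl_ne h2 hd hω Y
  rw [hY, hcc] at hs
  refine ⟨s / (c * dl a b ω Y), ?_⟩
  field_simp
  linear_combination hs

theorem half_two (h2 : (2 : K) ≠ 0) (hd : d = a ^ 2 - 4 * b) (hω : ω ^ 2 = algebraMap K L d)
    (hωK : ∀ r : K, algebraMap K L r ≠ ω) {R R' Y : Pt (crvT a b) K} {X X' : K}
    (h : FromX a b d R X) (h' : FromX a b d R' X') (hY : R + R' = Y + Y) :
    ∃ w : L, algebraMap K L (X * X') = w * w := by
  obtain ⟨s, hs⟩ := dl_from h2 hd hω hωK h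
  obtain ⟨s', hs'⟩ := dl_from h2 hd hω hωK h'
  obtain ⟨c, hc, hcc⟩ := dl_add h2 hd hω Y Y
  obtain ⟨e, he, hee⟩ := dl_add h2 hd hω R R'
  have hn := dl_ne h2 hd hω Y
  have hn1 := dl_ne h2 hd hω R
  have hn2 := dl_ne h2 hd hω R'
  rw [hY, hcc] at hee
  refine ⟨e * s * s' / (c * dl a b ω Y), ?_⟩
  rw [map_mul]
  field_simp
  have e1 : algebraMap K L X * algebraMap K L X' * (c * dl a b ω Y) ^ 2 =
      e ^ 2 * ((algebraMap K L X * dl a b ω R) * (algebraMap K L X' * dl a b ω R')) := by
    linear_combination (algebraMap K L X * algebraMap K L X') * hee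
  rw [hs, hs'] at e1
  linear_combination e1

end ext

/-- **Points which are in the image of the dual isogeny, and not divisible by two.** -/
theorem half_K {K : Type} [Field K] {a b d : K} (h2 : (2 : K) ≠ 0) (hd : d = a ^ 2 - 4 * b)
    (hsq : ∀ r : K, r ^ 2 ≠ d) :
    (∀ {R Y : Pt (crvT a b) K} {X : K}, FromX a b d R X → R = Y + Y →
      ∃ v : K, X = v ^ 2 ∨ X = v ^ 2 * d) ∧
    (∀ {R R' Y : Pt (crvT a b) K} {X X' : K}, FromX a b d R X → FromX a b d R' X' →
      R + R' = Y + Y → ∃ v : K, X * X' = v ^ 2 ∨ X * X' = v ^ 2 * d) := by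
  haveI : Fact (∀ r : K, r ^ 2 ≠ d + 0 * r) := ⟨fun r h => hsq r (by rw [h]; ring)⟩
  have hω : (QuadraticAlgebra.omega : QuadraticAlgebra K d 0) ^ 2 =
      algebraMap K (QuadraticAlgebra K d 0) d := by
    rw [pow_two, QuadraticAlgebra.omega_mul_omega_eq_algebraMap]
    simp
  have hωK : ∀ r : K, algebraMap K (QuadraticAlgebra K d 0) r ≠ QuadraticAlgebra.omega := by
    intro r h
    have := congrArg QuadraticAlgebra.im h
    rw [QuadraticAlgebra.algebraMap_im, QuadraticAlgebra.omega_im] at this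
    exact zero_ne_one this
  constructor
  · intro R Y X h hY
    obtain ⟨w, hw⟩ := half_one h2 hd hω hωK h hY
    rcases sq_quad h2 hw with h | h
    · exact ⟨_, Or.inl h⟩
    · exact ⟨_, Or.inr h⟩
  · intro R R' Y X X' h h' hY
    obtain ⟨w, hw⟩ := half_two h2 hd hω hωK h h' hY
    rcases sq_quad h2 hw with h | h
    · exact ⟨_, Or.inl h⟩
    · exact ⟨_, Or.inr h⟩

end Q45.Tate
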