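import Pool.Agent.Q45.Tate.Pts

/-!
The Tate conjecture at 2 for the universal curve.
-/

set_option autoImplicit false
set_option linter.all false

open Polynomial IsDedekindDomain WeierstrassCurve WeierstrassCurve.Affine
open scoped Classical

namespace Q45.Tate

open Pool.Agent.TH115.GD

section defs

variable {k : Type} [Field k]

/-- The three factors of `b`. -/
noncomputable def QQ (S x y z : k[X]) : Fin 3 → k[X] := ![q S x y z, q S y z x, q S z x y]

/-- The three factors of `a² - 4 b`. -/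
noncomputable def DD (S x y z : k[X]) : Fin 3 → k[X] :=
  ![S - 8 * (x * y * z), S + 8 * (x * y * z), r S x y z]

/-- The six polynomials are irreducible and separable, the first three are not associated, and the
last three are not associated; the products are not norms from quadratic extensions of `k`. -/
structure Good (S x y z : k[X]) : Prop where
  irrQ : ∀ i, Irreducible (QQ S x y z i)
  sepQ : ∀ i, (QQ S x y z i).Separable
  nassQ : ∀ i j, i ≠ j → ¬ QQ S x y z i ∣ QQ S x y z j
  irrD : ∀ i, Irreducible (DD S x y z i)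
  sepD : ∀ i, (DD S x y z i).Separable
  nassD : ∀ i j, i ≠ j → ¬ DD S x y z i ∣ DD S x y z j
  normQ : Odd (cB S x y z).natDegree ∨ NotNorm (cB S x y z)
  normD : Odd (cA S x y z ^ 2 - 4 * cB S x y z).natDegree ∨
    NotNorm (cA S x y z ^ 2 - 4 * cB S x y z)

end defs

section main

variable {k k' K F : Type} [Field k] [Field k'] [Algebra k k'] [Field K] [Algebra k[X] K]
    [Field F] [Algebra k'[X] F] [IsFractionRing k'[X] F] [Algebra K F]

theorem four_ne (h2 : (2 : k) ≠ 0) : (4 : k) ≠ 0 := by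
  have : (4 : k) = 2 * 2 := by norm_num
  rw [this]
  exact mul_ne_zero h2 h2

variable {S x y z : k[X]}

theorem Good.ne_yz (G : Good S x y z) : y ≠ z := by
  rintro rfl
  apply G.nassQ 1 2 (by decide)
  show q S y y x ∣ q S y x y
  rw [q_comm S y y x]

theorem Good.ne_zx (G : Good S x y z) : z ≠ x := by
  rintro rfl
  apply G.nassQ 0 2 (by decide)
  show q S z y z ∣ q S z z y
  rw [q_comm S z y z]

theorem Good.ne_xy (G : Good S x y z) : x ≠ y := by
  rintro rfl
  apply G.nassQ 0 1 (by decide)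
  show q S x x z ∣ q S x z x
  rw [q_comm S x x z]

theorem sixteen_ne (h2 : (2 : k) ≠ 0) : (-16 : k) ≠ 0 := by
  have : (-16 : k) = -(2 * 2 * (2 * 2)) := by norm_num
  rw [this]
  exact neg_ne_zero.2 (mul_ne_zero (mul_ne_zero h2 h2) (mul_ne_zero h2 h2))

theorem Good.tp (G : Good S x y z) : 1 + (x + y + z) ≠ 0 := by
  intro h
  apply G.nassD 1 2 (by decide)
  show S + 8 * (x * y * z) ∣ r S x y z
  rw [r_sub_plus, h, zero_mul, sub_zero]

theorem Good.tm (G : Good S x y z) : 1 - (x + y + z) ≠ 0 := by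
  intro h
  apply G.nassD 0 2 (by decide)
  show S - 8 * (x * y * z) ∣ r S x y z
  rw [r_sub_minus, h, zero_mul, sub_zero]

theorem Good.b0 (G : Good S x y z) (h2 : (2 : k) ≠ 0) : cB S x y z ≠ 0 := by
  have h4 : (4 : k[X]) ≠ 0 := by
    rw [← C_ofNat]
    exact C_ne_zero.2 (four_ne h2)
  exact mul_ne_zero h4 (mul_ne_zero (mul_ne_zero (G.irrQ 0).ne_zero (G.irrQ 1).ne_zero)
    (G.irrQ 2).ne_zero)

theorem disc' (S x y z : k[X]) : cA S x y z ^ 2 - 4 * cB S x y z =
    C (-16) * (DD S x y z 0 * DD S x y z 1 * DD S x y z 2) := by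
  rw [disc, C_neg, C_ofNat]
  rfl

theorem Good.d0 (G : Good S x y z) (h2 : (2 : k) ≠ 0) :
    cA S x y z ^ 2 - 4 * cB S x y z ≠ 0 := by
  rw [disc']
  exact mul_ne_zero (C_ne_zero.2 (sixteen_ne h2)) (mul_ne_zero (mul_ne_zero (G.irrD 0).ne_zero
    (G.irrD 1).ne_zero) (G.irrD 2).ne_zero)

/-- Points on the curve, in the field of fractions. -/
theorem pointE (h2 : (2 : k) ≠ 0) [IsFractionRing k[X] K] (hyz : y ≠ z) :
    ∃ (c : k) (s w : K), c ≠ 0 ∧ s ≠ 0 ∧
      w ^ 2 = (algebraMap k[X] K (C c * q S x y z) * s ^ 2) *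
        ((algebraMap k[X] K (C c * q S x y z) * s ^ 2) ^ 2 +
          algebraMap k[X] K (cA S x y z) * (algebraMap k[X] K (C c * q S x y z) * s ^ 2) +
            algebraMap k[X] K (cB S x y z)) := by
  have inj := IsFractionRing.injective k[X] K
  refine ⟨4, algebraMap k[X] K (y - z),
    algebraMap k[X] K (4 * (y - z) * q S x y z * (S + 4 * (y * z) * (1 + x ^ 2 - (y - z) ^ 2))),
    four_ne h2, ?_, ?_⟩
  · intro h
    exact hyz (sub_eq_zero.1 (inj (by rw [h, map_zero])))
  · have h := congrArg (algebraMap k[X] K) (ptE S x y z)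
    have e : algebraMap k[X] K (C 4 * q S x y z) * algebraMap k[X] K (y - z) ^ 2 =
        algebraMap k[X] K (4 * (y - z) ^ 2 * q S x y z) := by
      rw [← map_pow, ← map_mul, C_ofNat]
      congr 1
      ring
    rw [e, ← map_pow, h]
    simp only [map_mul, map_add, map_pow]

/-- Points on the isogenous curve, in the field of fractions. -/
theorem pointD (h2 : (2 : k) ≠ 0) [IsFractionRing k[X] K] (ht : 1 + (x + y + z) ≠ 0) :
    ∃ (c : k) (s w : K), c ≠ 0 ∧ s ≠ 0 ∧
      w ^ 2 = (algebraMap k[X] K (C c * (S - 8 * (x * y * z))) * s ^ 2) *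
        ((algebraMap k[X] K (C c * (S - 8 * (x * y * z))) * s ^ 2) ^ 2 +
          algebraMap k[X] K (-2 * cA S x y z) *
            (algebraMap k[X] K (C c * (S - 8 * (x * y * z))) * s ^ 2) +
            algebraMap k[X] K (cA S x y z ^ 2 - 4 * cB S x y z)) := by
  have inj := IsFractionRing.injective k[X] K
  refine ⟨-4, algebraMap k[X] K (1 + (x + y + z)),
    algebraMap k[X] K (8 * (1 + (x + y + z)) * (S - 8 * (x * y * z)) * (S + 8 * (x * y * z) -
      4 * (x * y + y * z + z * x + x * y * z) * (1 + (x + y + z)))),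
    neg_ne_zero.2 (four_ne h2), ?_, ?_⟩
  · intro h
    exact ht (inj (by rw [h, map_zero]))
  · have h := congrArg (algebraMap k[X] K) (ptE' S x y z)
    have e : algebraMap k[X] K (C (-4) * (S - 8 * (x * y * z))) *
        algebraMap k[X] K (1 + (x + y + z)) ^ 2 =
        algebraMap k[X] K (-4 * (1 + (x + y + z)) ^ 2 * (S - 8 * (x * y * z))) := by
      rw [← map_pow, ← map_mul, C_neg, C_ofNat]
      congr 1
      ring
    rw [e, ← map_pow, h]
    simp only [map_mul, map_add, map_pow]

theorem pointR (h2 : (2 : k) ≠ 0) [IsFractionRing k[X] K] :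
    ∃ (c : k) (s w : K), c ≠ 0 ∧ s ≠ 0 ∧
      w ^ 2 = (algebraMap k[X] K (C c * r S x y z) * s ^ 2) *
        ((algebraMap k[X] K (C c * r S x y z) * s ^ 2) ^ 2 +
          algebraMap k[X] K (-2 * cA S x y z) * (algebraMap k[X] K (C c * r S x y z) * s ^ 2) +
            algebraMap k[X] K (cA S x y z ^ 2 - 4 * cB S x y z)) := by
  refine ⟨-16, 1, algebraMap k[X] K (16 * r S x y z * (S - 4 * (1 - (x ^ 2 + y ^ 2 + z ^ 2)))),
    sixteen_ne h2, one_ne_zero, ?_⟩
  have h := congrArg (algebraMap k[X] K) (ptE3 S x y z)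
  have e : algebraMap k[X] K (C (-16) * r S x y z) * 1 ^ 2 =
      algebraMap k[X] K (-16 * r S x y z) := by
    rw [C_neg, C_ofNat]
    ring
  rw [e, ← map_pow, h]
  simp only [map_mul, map_add, map_pow]

/-- **The Tate conjecture at 2.** -/
theorem tate (hT : IsTower k k' K F) (h2 : (2 : k) ≠ 0) (G : Good S x y z) :
    TateAtTwo (F := F) k' (crvT (algebraMap k[X] K (cA S x y z))
      (algebraMap k[X] K (cB S x y z))) := by
  haveI := hT.fracK
  have h4 : (4 : k) ≠ 0 := four_ne h2
  have hd := G.d0 h2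
  have hd' : (-2 * cA S x y z) ^ 2 - 4 * (cA S x y z ^ 2 - 4 * cB S x y z) ≠ 0 := by
    have e : (-2 * cA S x y z) ^ 2 - 4 * (cA S x y z ^ 2 - 4 * cB S x y z) =
        C 4 * (C 4 * cB S x y z) := by
      rw [C_ofNat]; ring
    rw [e]
    exact mul_ne_zero (C_ne_zero.2 h4) (mul_ne_zero (C_ne_zero.2 h4) (G.b0 h2))
  have key : ∀ {π w : k[X]}, w.Separable → π ∣ w → π.Separable := fun hs h => hs.of_dvd h
  have key3 : ∀ {π : k[X]} {p : Fin 3 → k[X]} {u : k}, u ≠ 0 → Irreducible π →
      (∀ i, (p i).Separable) → π ∣ C u * (p 0 * p 1 * p 2) → π.Separable := by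
    intro π p u hu hπ hs h
    have h6 : IsUnit (C u : k[X]) := isUnit_C.2 (isUnit_iff_ne_zero.2 hu)
    rw [h6.dvd_mul_left] at h
    rcases hπ.prime.dvd_or_dvd h with h5 | h5
    · rcases hπ.prime.dvd_or_dvd h5 with h5 | h5
      · exact key (hs 0) h5
      · exact key (hs 1) h5
    · exact key (hs 2) h5
  have eB : cB S x y z = C 4 * (QQ S x y z 0 * QQ S x y z 1 * QQ S x y z 2) := by
    rw [C_ofNat]; rfl
  refine mainT hT h2 (G.b0 h2) hd ?_ (G.normQ.elim notNorm_of_odd id)
    (G.normD.elim notNorm_of_odd id) ?_ ?_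
  · intro π hπ hdv
    rcases hπ.prime.dvd_or_dvd hdv with h | h
    · rw [eB] at h
      exact key3 h4 hπ G.sepQ h
    · rw [disc'] at h
      exact key3 (sixteen_ne h2) hπ G.sepD h
  · refine enough3 hT h2 (u := 4) h4 (G.irrQ 0) (G.irrQ 1) (G.irrQ 2) eB hd ?_
    intro π hπ
    simp only [Set.mem_insert_iff, Set.mem_singleton_iff] at hπ
    rcases hπ with rfl | rfl | rfl
    · exact pointE h2 G.ne_yz
    · have := pointE (K := K) (S := S) h2 G.ne_zx (x := y)
      rw [← cA_rot S x y z, ← cB_rot S x y z] at this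
      exact this
    · have := pointE (K := K) (S := S) h2 G.ne_xy (x := z)
      rw [← cA_rot S y z x, ← cB_rot S y z x, ← cA_rot S x y z, ← cB_rot S x y z] at this
      exact this
  · refine enough3 hT h2 (u := -16) (sixteen_ne h2) (G.irrD 0) (G.irrD 1) (G.irrD 2)
      (disc' S x y z) hd' ?_
    intro π hπ
    simp only [Set.mem_insert_iff, Set.mem_singleton_iff] at hπ
    rcases hπ with rfl | rfl | rfl
    · exact pointD h2 G.tp
    · have h5 : 1 + (-x + -y + -z) ≠ 0 := by
        have e : 1 + (-x + -y + -z) = 1 - (x + y + z) := by ring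
        rw [e]; exact G.tm
      have := pointD (K := K) (S := S) h2 h5
      rw [cA_neg, cB_neg] at this
      have e : S - 8 * (-x * -y * -z) = S + 8 * (x * y * z) := by ring
      rw [e] at this
      exact this
    · exact pointR h2

end main

end Q45.Tate
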