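import Pool.Agent.TH115.ID.Gener
import Pool.Agent.Q45.Tate.Alg

/-!
Points of `y² = x (x² + a x + b)` and the descent classes.
-/

set_option autoImplicit false
set_option linter.all false

open Polynomial IsDedekindDomain WeierstrassCurve WeierstrassCurve.Affine
open scoped Classical

namespace Q45.Tate

open Pool.Agent.TH115.GD

section curve

variable {K L : Type*} [Field K] [Field L] [Algebra K L]

theorem a1T (a b : K) : ((crvT a b).baseChange L).toAffine.a₁ = 0 := map_zero _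
theorem a2T (a b : K) : ((crvT a b).baseChange L).toAffine.a₂ = algebraMap K L a := rfl
theorem a3T (a b : K) : ((crvT a b).baseChange L).toAffine.a₃ = 0 := map_zero _
theorem a4T (a b : K) : ((crvT a b).baseChange L).toAffine.a₄ = algebraMap K L b := rfl
theorem a6T (a b : K) : ((crvT a b).baseChange L).toAffine.a₆ = 0 := map_zero _

theorem eqT {a b : K} {x y : L} : ((crvT a b).baseChange L).toAffine.Equation x y ↔
    y ^ 2 = x * (x ^ 2 + algebraMap K L a * x + algebraMap K L b) := by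
  rw [Affine.equation_iff, a1T, a2T, a3T, a4T, a6T]
  constructor
  · intro h; linear_combination h
  · intro h; linear_combination h

theorem nonsT (h2 : (2 : L) ≠ 0) {a b : K} (hb : b ≠ 0) (hd : a ^ 2 - 4 * b ≠ 0) {x y : L}
    (h : y ^ 2 = x * (x ^ 2 + algebraMap K L a * x + algebraMap K L b)) :
    ((crvT a b).baseChange L).toAffine.Nonsingular x y := by
  rw [Affine.nonsingular_iff, a1T, a2T, a3T, a4T]
  refine ⟨eqT.2 h, ?_⟩
  have hbL : algebraMap K L b ≠ 0 := (_root_.map_ne_zero _).2 hb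
  have hdL : algebraMap K L a ^ 2 - 4 * algebraMap K L b ≠ 0 := by
    have := (_root_.map_ne_zero (algebraMap K L)).2 hd
    rwa [map_sub, map_pow, map_mul, map_ofNat] at this
  by_cases hy : y = 0
  · left
    subst hy
    intro h1
    have h3 : x * (x ^ 2 + algebraMap K L a * x + algebraMap K L b) = 0 := by
      rw [← h]; ring
    have h4 : 3 * x ^ 2 + 2 * algebraMap K L a * x + algebraMap K L b = 0 := by
      linear_combination -h1
    rcases mul_eq_zero.1 h3 with h5 | h5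
    · rw [h5] at h4
      apply hbL
      linear_combination h4
    · -- x² + a x + b = 0 and 3 x² + 2 a x + b = 0
      have h6 : x * (2 * x + algebraMap K L a) = 0 := by linear_combination h4 - h5
      rcases mul_eq_zero.1 h6 with h7 | h7
      · rw [h7] at h5
        apply hbL
        linear_combination h5
      · apply hdL
        linear_combination (-4 : L) * h5 + (2 * x + algebraMap K L a) * h7
  · right
    intro h1
    have h3 : (2 : L) * y = 0 := by linear_combination h1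
    rcases mul_eq_zero.1 h3 with h4 | h4
    · exact h2 h4
    · exact hy h4

end curve

section classes

variable {k k' K F : Type} [Field k] [Field k'] [Algebra k k'] [Field K] [Algebra k[X] K]
    [Field F] [Algebra k'[X] F] [IsFractionRing k'[X] F] [Algebra K F]

/-- Equality up to constants and squares. -/
theorem rep_of (hT : IsTower k k' K F) (h2 : (2 : k) ≠ 0) {B : k[X]} (hB : B ≠ 0) {c d : k}
    (hc : c ≠ 0) (hd : d ≠ 0) {s : K} (hs : s ≠ 0) {e : K}
    (he : e = algebraMap k[X] K (C d * B) * s ^ 2) : Represents K F (C c * B) e := by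
  haveI := hT.sep
  haveI := hT.fracK
  haveI : IsSepClosed k' := IsSepClosure.sep_closed k
  have hKF := hT.map
  have h2' : (2 : k') ≠ 0 := by
    rw [← map_ofNat (algebraMap k k') 2]
    exact (_root_.map_ne_zero _).2 h2
  haveI : NeZero ((2 : ℕ) : k') := ⟨by exact_mod_cast h2'⟩
  obtain ⟨w, hw⟩ := IsSepClosed.exists_pow_nat_eq (algebraMap k k' (c / d)) 2
  have hw0 : w ≠ 0 := by
    rintro rfl
    rw [zero_pow two_ne_zero] at hw
    exact (_root_.map_ne_zero _).2 (div_ne_zero hc hd) hw.symm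
  have hwF : algebraMap k'[X] F (C w) ≠ 0 := by simpa using hw0
  have hsF : algebraMap K F s ≠ 0 := (_root_.map_ne_zero _).2 hs
  refine ⟨algebraMap k'[X] F (C w) / algebraMap K F s, div_ne_zero hwF hsF, ?_⟩
  have hsq : algebraMap k'[X] F (C w) ^ 2 =
      algebraMap K F (algebraMap k[X] K (C (c / d))) := by
    rw [← map_pow, ← C_pow, hw, hKF, map_C]
  have e1 : algebraMap K F (algebraMap k[X] K (C (c / d))) *
      algebraMap K F (algebraMap k[X] K (C d)) = algebraMap K F (algebraMap k[X] K (C c)) := by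
    rw [← map_mul, ← map_mul, ← C_mul, div_mul_cancel₀ _ hd]
  rw [he, div_pow, hsq]
  simp only [map_mul, map_pow]
  rw [← e1]
  field_simp

/-- Divisors of a product of three irreducible polynomials. -/
theorem dvd_irr_mul {π A B : k[X]} (hπ : Irreducible π) (h : A ∣ π * B) :
    (∃ A', A = π * A' ∧ A' ∣ B) ∨ A ∣ B := by
  by_cases hd : π ∣ A
  · obtain ⟨A', rfl⟩ := hd
    exact Or.inl ⟨A', rfl, (mul_dvd_mul_iff_left hπ.ne_zero).1 h⟩
  · right
    have hc : IsCoprime A π := ((hπ.coprime_iff_not_dvd).2 hd).symm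
    exact hc.dvd_of_dvd_mul_left h

theorem dvd_unit {u : k} (hu : u ≠ 0) {B : k[X]} (hB : B ∣ C u) : ∃ c : k, c ≠ 0 ∧ B = C c := by
  have hU : IsUnit B := isUnit_of_dvd_unit hB (isUnit_C.2 (isUnit_iff_ne_zero.2 hu))
  obtain ⟨c, hc, hcB⟩ := Polynomial.isUnit_iff.1 hU
  exact ⟨c, hc.ne_zero, hcB.symm⟩

theorem dvd_three {π₀ π₁ π₂ A : k[X]} {u : k} (hu : u ≠ 0) (h0 : Irreducible π₀)
    (h1 : Irreducible π₁) (h2 : Irreducible π₂) (h : A ∣ C u * (π₀ * π₁ * π₂)) :
    ∃ c : k, c ≠ 0 ∧ (A = C c * 1 ∨ A = C c * π₀ ∨ A = C c * π₁ ∨ A = C c * π₂ ∨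
      A = C c * (π₁ * π₂) ∨ A = C c * (π₀ * π₂) ∨ A = C c * (π₀ * π₁) ∨
      A = C c * (π₀ * π₁ * π₂)) := by
  replace h : A ∣ π₀ * (π₁ * (π₂ * C u)) := by
    have e : C u * (π₀ * π₁ * π₂) = π₀ * (π₁ * (π₂ * C u)) := by ring
    rwa [e] at h
  rcases dvd_irr_mul h0 h with ⟨B, hB, h⟩ | h
  · rcases dvd_irr_mul h1 h with ⟨B', hB', h⟩ | h
    · rcases dvd_irr_mul h2 h with ⟨B'', hB'', h⟩ | h
      · obtain ⟨c, hc, e⟩ := dvd_unit hu h
        refine ⟨c, hc, Or.inr (Or.inr (Or.inr (Or.inr (Or.inr (Or.inr (Or.inr ?_))))))⟩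
        rw [hB, hB', hB'', e]
        ring
      · obtain ⟨c, hc, e⟩ := dvd_unit hu h
        refine ⟨c, hc, Or.inr (Or.inr (Or.inr (Or.inr (Or.inr (Or.inr (Or.inl ?_))))))⟩
        rw [hB, hB', e]
        ring
    · rcases dvd_irr_mul h2 h with ⟨B'', hB'', h⟩ | h
      · obtain ⟨c, hc, e⟩ := dvd_unit hu h
        refine ⟨c, hc, Or.inr (Or.inr (Or.inr (Or.inr (Or.inr (Or.inl ?_)))))⟩
        rw [hB, hB'', e]
        ring
      · obtain ⟨c, hc, e⟩ := dvd_unit hu h
        refine ⟨c, hc, Or.inr (Or.inl ?_)⟩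
        rw [hB, e]
        ring
  · rcases dvd_irr_mul h1 h with ⟨B', hB', h⟩ | h
    · rcases dvd_irr_mul h2 h with ⟨B'', hB'', h⟩ | h
      · obtain ⟨c, hc, e⟩ := dvd_unit hu h
        refine ⟨c, hc, Or.inr (Or.inr (Or.inr (Or.inr (Or.inl ?_))))⟩
        rw [hB', hB'', e]
        ring
      · obtain ⟨c, hc, e⟩ := dvd_unit hu h
        refine ⟨c, hc, Or.inr (Or.inr (Or.inl ?_))⟩
        rw [hB', e]
        ring
    · rcases dvd_irr_mul h2 h with ⟨B'', hB'', h⟩ | h
      · obtain ⟨c, hc, e⟩ := dvd_unit hu h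
        refine ⟨c, hc, Or.inr (Or.inr (Or.inr (Or.inl ?_)))⟩
        rw [hB'', e]
        ring
      · obtain ⟨c, hc, e⟩ := dvd_unit hu h
        refine ⟨c, hc, Or.inl ?_⟩
        rw [e, mul_one]

/-- A point with `x ≠ 0`. -/
theorem pt_rep {a b : k[X]} {x y : K} (hx : x ≠ 0)
    (hn : ((crvT (algebraMap k[X] K a) (algebraMap k[X] K b)).baseChange
      K).toAffine.Nonsingular x y) :
    dT (algebraMap k[X] K b) (Point.some x y hn) = x := by
  simp [dT, hx]

/-- **Three irreducible factors, and a point for each of them.** -/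
theorem enough3 (hT : IsTower k k' K F) (h2 : (2 : k) ≠ 0) {a b π₀ π₁ π₂ : k[X]} {u : k}
    (hu : u ≠ 0) (h0 : Irreducible π₀) (h1 : Irreducible π₁) (h3 : Irreducible π₂)
    (hb : b = C u * (π₀ * π₁ * π₂)) (hd : a ^ 2 - 4 * b ≠ 0)
    (hp : ∀ π ∈ ({π₀, π₁, π₂} : Set k[X]), ∃ (c : k) (s y : K), c ≠ 0 ∧ s ≠ 0 ∧
      y ^ 2 = (algebraMap k[X] K (C c * π) * s ^ 2) *
        ((algebraMap k[X] K (C c * π) * s ^ 2) ^ 2 +
          algebraMap k[X] K a * (algebraMap k[X] K (C c * π) * s ^ 2) + algebraMap k[X] K b)) :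
    EnoughPointsT K F a b := by
  haveI := hT.fracK
  have inj := IsFractionRing.injective k[X] K
  have hb0 : b ≠ 0 := by
    rw [hb]
    exact mul_ne_zero (C_ne_zero.2 hu) (mul_ne_zero (mul_ne_zero h0.ne_zero h1.ne_zero) h3.ne_zero)
  have hbK : algebraMap k[X] K b ≠ 0 := by simpa using hb0
  have hdK : algebraMap k[X] K a ^ 2 - 4 * algebraMap k[X] K b ≠ 0 := by
    have e : algebraMap k[X] K (a ^ 2 - 4 * b) = algebraMap k[X] K a ^ 2 -
        4 * algebraMap k[X] K b := by rw [map_sub, map_mul, map_pow, map_ofNat]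
    rw [← e]
    intro h
    exact hd (inj (by rw [h, map_zero]))
  have h2K : (2 : K) ≠ 0 := by
    have h4 : algebraMap k[X] K (C 2) ≠ 0 := by simpa using h2
    rwa [C_ofNat, map_ofNat] at h4
  have mk : ∀ {x y : K}, y ^ 2 = x * (x ^ 2 + algebraMap k[X] K a * x + algebraMap k[X] K b) →
      ((crvT (algebraMap k[X] K a) (algebraMap k[X] K b)).baseChange
        K).toAffine.Nonsingular x y := fun h => nonsT h2K hbK hdK h
  -- the two points for a factor
  have key : ∀ π ∈ ({π₀, π₁, π₂} : Set k[X]), ∀ ρ : k[X], ρ ≠ 0 → π ≠ 0 →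
      b = C u * (ρ * π) → ∀ c : k, c ≠ 0 →
      (∃ P : Pt (crvT (algebraMap k[X] K a) (algebraMap k[X] K b)) K,
        Represents K F (C c * π) (dT (algebraMap k[X] K b) P)) ∧
      (∃ P : Pt (crvT (algebraMap k[X] K a) (algebraMap k[X] K b)) K,
        Represents K F (C c * ρ) (dT (algebraMap k[X] K b) P)) := by
    intro π hπ ρ hρ0 hπ0 hbe c hc
    obtain ⟨e, s, y, he, hs, hy⟩ := hp π hπ
    set x := algebraMap k[X] K (C e * π) * s ^ 2 with hx
    have hx0 : x ≠ 0 := by
      rw [hx]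
      refine mul_ne_zero ?_ (pow_ne_zero 2 hs)
      have : C e * π ≠ 0 := mul_ne_zero (C_ne_zero.2 he) hπ0
      simpa using this
    refine ⟨⟨Point.some x y (mk hy), ?_⟩, ?_⟩
    · rw [pt_rep hx0]
      exact rep_of hT h2 hπ0 hc he hs hx
    · have hy' : (-(algebraMap k[X] K b * y) / x ^ 2) ^ 2 = (algebraMap k[X] K b / x) *
          ((algebraMap k[X] K b / x) ^ 2 + algebraMap k[X] K a * (algebraMap k[X] K b / x) +
            algebraMap k[X] K b) := by
        field_simp
        rw [hy]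
        ring
      refine ⟨Point.some _ _ (mk hy'), ?_⟩
      rw [pt_rep (div_ne_zero hbK hx0)]
      refine rep_of hT h2 hρ0 hc (d := u / e) (div_ne_zero hu he) (s := s⁻¹) (inv_ne_zero hs) ?_
      have e1 : algebraMap k[X] K (C (u / e)) * algebraMap k[X] K (C e) =
          algebraMap k[X] K (C u) := by
        rw [← map_mul, ← C_mul, div_mul_cancel₀ _ he]
      have n1 : algebraMap k[X] K (C e) ≠ 0 := by simpa using he
      have n2 : algebraMap k[X] K π ≠ 0 := by simpa using hπ0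
      rw [hx, hbe]
      simp only [map_mul]
      rw [← e1]
      field_simp
  intro A hA hs hdv
  rw [hb] at hdv
  have m0 : π₀ ∈ ({π₀, π₁, π₂} : Set k[X]) := by simp
  have m1 : π₁ ∈ ({π₀, π₁, π₂} : Set k[X]) := by simp
  have m2 : π₂ ∈ ({π₀, π₁, π₂} : Set k[X]) := by simp
  obtain ⟨c, hc, h | h | h | h | h | h | h | h⟩ := dvd_three hu h0 h1 h3 hdv
  · refine ⟨0, ?_⟩
    rw [h]
    exact rep_of hT h2 one_ne_zero hc (d := 1) one_ne_zero (s := 1) one_ne_zero (by
      show (1 : K) = _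
      simp)
  · rw [h]
    exact (key π₀ m0 (π₁ * π₂) (mul_ne_zero h1.ne_zero h3.ne_zero) h0.ne_zero
      (by rw [hb]; ring) c hc).1
  · rw [h]
    exact (key π₁ m1 (π₀ * π₂) (mul_ne_zero h0.ne_zero h3.ne_zero) h1.ne_zero
      (by rw [hb]; ring) c hc).1
  · rw [h]
    exact (key π₂ m2 (π₀ * π₁) (mul_ne_zero h0.ne_zero h1.ne_zero) h3.ne_zero
      (by rw [hb]) c hc).1
  · rw [h]
    exact (key π₀ m0 (π₁ * π₂) (mul_ne_zero h1.ne_zero h3.ne_zero) h0.ne_zero
      (by rw [hb]; ring) c hc).2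
  · rw [h]
    exact (key π₁ m1 (π₀ * π₂) (mul_ne_zero h0.ne_zero h3.ne_zero) h1.ne_zero
      (by rw [hb]; ring) c hc).2
  · rw [h]
    exact (key π₂ m2 (π₀ * π₁) (mul_ne_zero h0.ne_zero h1.ne_zero) h3.ne_zero
      (by rw [hb]) c hc).2
  · rw [h]
    refine ⟨Point.some 0 0 (mk (by ring)), ?_⟩
    have e : ∀ hn : ((crvT (algebraMap k[X] K a) (algebraMap k[X] K b)).baseChange
        K).toAffine.Nonsingular 0 0, dT (algebraMap k[X] K b) (Point.some 0 0 hn) =
        algebraMap k[X] K b := by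
      intro hn
      simp [dT]
    rw [e]
    exact rep_of hT h2 (mul_ne_zero (mul_ne_zero h0.ne_zero h1.ne_zero) h3.ne_zero) hc hu
      (s := 1) one_ne_zero (by rw [← hb]; ring)

end classes

end Q45.Tate
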